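import Mathlib

set_option autoImplicit false

open Finset

namespace Pool.Agent.Helper830.DJ

variable {V : Type*} [Fintype V] [DecidableEq V]

/-- sum of `b` over the set `X` -/
def S (b : V → ℤ) (X : Finset V) : ℤ := ∑ v ∈ X, b v

/-- signed indicator of the pair `(p, q)` on `X` -/
def xx (p q : V) (X : Finset V) : ℤ := (if p ∈ X then 1 else 0) - (if q ∈ X then 1 else 0)

structure Good (L : Set (Finset V)) (b : V → ℤ) (k : ℤ) (p1 q1 p2 q2 p3 q3 : V) : Prop where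
  inter : ∀ X ∈ L, ∀ Y ∈ L, X ∩ Y ∈ L
  union : ∀ X ∈ L, ∀ Y ∈ L, X ∪ Y ∈ L
  total : S b univ = 0
  low : ∀ X ∈ L, X.Nonempty → X ≠ univ → 2 * k ≤ S b X
  par : ∀ X ∈ L, ∃ t : ℤ, S b X = xx p1 q1 X + xx p2 q2 X + xx p3 q3 X + 2 * t

/-- `X` is a nontrivial member of `L` with `b`-sum `c` -/
def At (L : Set (Finset V)) (b : V → ℤ) (c : ℤ) (X : Finset V) : Prop :=
  X ∈ L ∧ X.Nonempty ∧ X ≠ univ ∧ S b X = c

theorem S_inter_union (b : V → ℤ) (X Y : Finset V) : S b (X ∩ Y) + S b (X ∪ Y) = S b X + S b Y := by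
  unfold S
  have := Finset.sum_union_inter (f := b) (s₁ := X) (s₂ := Y)
  linarith

theorem xx_swap (p q : V) (X : Finset V) : xx q p X = - xx p q X := by
  unfold xx; ring

theorem xx_one (p q : V) (X : Finset V) : xx p q X = 1 ↔ p ∈ X ∧ q ∉ X := by
  unfold xx; split_ifs <;> simp_all

theorem xx_neg (p q : V) (X : Finset V) : xx p q X = -1 ↔ p ∉ X ∧ q ∈ X := by
  unfold xx; split_ifs <;> simp_all

theorem xx_zero (p q : V) (X : Finset V) : xx p q X = 0 ↔ (p ∈ X ↔ q ∈ X) := by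
  unfold xx; split_ifs <;> simp_all

theorem xx_cases (p q : V) (X : Finset V) : xx p q X = 1 ∨ xx p q X = -1 ∨ xx p q X = 0 := by
  unfold xx; split_ifs <;> simp

theorem Good.swap1 {L : Set (Finset V)} {b : V → ℤ} {k : ℤ} {p1 q1 p2 q2 p3 q3 : V}
    (h : Good L b k p1 q1 p2 q2 p3 q3) : Good L b k q1 p1 p2 q2 p3 q3 := by
  refine ⟨h.inter, h.union, h.total, h.low, fun X hX => ?_⟩
  obtain ⟨t, ht⟩ := h.par X hX
  exact ⟨t + xx p1 q1 X, by rw [xx_swap p1 q1]; linarith⟩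

theorem Good.rot {L : Set (Finset V)} {b : V → ℤ} {k : ℤ} {p1 q1 p2 q2 p3 q3 : V}
    (h : Good L b k p1 q1 p2 q2 p3 q3) : Good L b k p2 q2 p3 q3 p1 q1 := by
  refine ⟨h.inter, h.union, h.total, h.low, fun X hX => ?_⟩
  obtain ⟨t, ht⟩ := h.par X hX
  exact ⟨t, by linarith⟩

theorem Good.perm12 {L : Set (Finset V)} {b : V → ℤ} {k : ℤ} {p1 q1 p2 q2 p3 q3 : V}
    (h : Good L b k p1 q1 p2 q2 p3 q3) : Good L b k p2 q2 p1 q1 p3 q3 := by
  refine ⟨h.inter, h.union, h.total, h.low, fun X hX => ?_⟩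
  obtain ⟨t, ht⟩ := h.par X hX
  exact ⟨t, by linarith⟩

theorem Good.swap2 {L : Set (Finset V)} {b : V → ℤ} {k : ℤ} {p1 q1 p2 q2 p3 q3 : V}
    (h : Good L b k p1 q1 p2 q2 p3 q3) : Good L b k p1 q1 q2 p2 p3 q3 :=
  h.perm12.swap1.perm12

theorem Good.swap3 {L : Set (Finset V)} {b : V → ℤ} {k : ℤ} {p1 q1 p2 q2 p3 q3 : V}
    (h : Good L b k p1 q1 p2 q2 p3 q3) : Good L b k p1 q1 p2 q2 q3 p3 :=
  h.rot.rot.swap1.rot

theorem Good.perm23 {L : Set (Finset V)} {b : V → ℤ} {k : ℤ} {p1 q1 p2 q2 p3 q3 : V}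
    (h : Good L b k p1 q1 p2 q2 p3 q3) : Good L b k p1 q1 p3 q3 p2 q2 := by
  refine ⟨h.inter, h.union, h.total, h.low, fun X hX => ?_⟩
  obtain ⟨t, ht⟩ := h.par X hX
  exact ⟨t, by linarith⟩

theorem Good.cross {L : Set (Finset V)} {b : V → ℤ} {k : ℤ} {p1 q1 p2 q2 p3 q3 : V}
    (h : Good L b k p1 q1 p2 q2 p3 q3) {X Y : Finset V} (hX : X ∈ L) (hY : Y ∈ L)
    (h1 : (X ∩ Y).Nonempty) (h2 : X ∪ Y ≠ univ) :
    At L b (S b (X ∩ Y)) (X ∩ Y) ∧ At L b (S b (X ∪ Y)) (X ∪ Y) ∧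
    S b (X ∩ Y) + S b (X ∪ Y) = S b X + S b Y ∧ 2 * k ≤ S b (X ∩ Y) ∧ 2 * k ≤ S b (X ∪ Y) ∧
    (∃ t : ℤ, S b (X ∩ Y) = xx p1 q1 (X ∩ Y) + xx p2 q2 (X ∩ Y) + xx p3 q3 (X ∩ Y) + 2 * t) ∧
    (∃ t : ℤ, S b (X ∪ Y) = xx p1 q1 (X ∪ Y) + xx p2 q2 (X ∪ Y) + xx p3 q3 (X ∪ Y) + 2 * t) := by
  have h3 : X ∩ Y ≠ univ := by
    intro he
    apply h2
    apply eq_univ_of_forall
    intro v
    have : v ∈ X ∩ Y := by rw [he]; exact mem_univ v
    exact mem_union_left _ (mem_inter.1 this).1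
  have h4 : (X ∪ Y).Nonempty := by
    obtain ⟨v, hv⟩ := h1
    exact ⟨v, mem_union_left _ (mem_inter.1 hv).1⟩
  exact ⟨⟨h.inter X hX Y hY, h1, h3, rfl⟩, ⟨h.union X hX Y hY, h4, h2, rfl⟩,
    S_inter_union b X Y, h.low _ (h.inter X hX Y hY) h1 h3, h.low _ (h.union X hX Y hY) h4 h2,
    h.par _ (h.inter X hX Y hY), h.par _ (h.union X hX Y hY)⟩

theorem Good.crossp {L : Set (Finset V)} {b : V → ℤ} {k : ℤ} {p1 q1 p2 q2 p3 q3 : V}
    (h : Good L b k p1 q1 p2 q2 p3 q3) {X Y : Finset V} (hX : X ∈ L) (hY : Y ∈ L)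
    {u w : V} (h1 : u ∈ X) (h2 : u ∈ Y) (h3 : w ∉ X) (h4 : w ∉ Y) :
    At L b (S b (X ∩ Y)) (X ∩ Y) ∧ At L b (S b (X ∪ Y)) (X ∪ Y) ∧
    S b (X ∩ Y) + S b (X ∪ Y) = S b X + S b Y ∧ 2 * k ≤ S b (X ∩ Y) ∧ 2 * k ≤ S b (X ∪ Y) ∧
    (∃ t : ℤ, S b (X ∩ Y) = xx p1 q1 (X ∩ Y) + xx p2 q2 (X ∩ Y) + xx p3 q3 (X ∩ Y) + 2 * t) ∧
    (∃ t : ℤ, S b (X ∪ Y) = xx p1 q1 (X ∪ Y) + xx p2 q2 (X ∪ Y) + xx p3 q3 (X ∪ Y) + 2 * t) := by
  refine h.cross hX hY ⟨u, mem_inter.2 ⟨h1, h2⟩⟩ ?_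
  intro he
  have : w ∈ X ∪ Y := by rw [he]; exact mem_univ w
  rcases mem_union.1 this with h | h
  · exact h3 h
  · exact h4 h

section Sec_euler

/-- signed divergence of the arc weights `c` at `v` -/
def dv {V A : Type*} [DecidableEq V] (tail head : A → V) (J : Finset A) (c : A → ℤ) (v : V) : ℤ :=
  ∑ a ∈ J, c a * ((if tail a = v then 1 else 0) - (if head a = v then 1 else 0))

theorem euler {V A : Type*} [Fintype V] [DecidableEq V] [DecidableEq A] (tail head : A → V)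
    (J : Finset A) :
    ∃ N : V → V, (∀ v, N (N v) = v) ∧ (∀ v, N v = v ↔ Even (dv tail head J (fun _ => 1) v)) ∧
      ∀ ε : V → ℤ, (∀ v, ε (N v) = - ε v) → (∀ v, N v ≠ v → ε v = 1 ∨ ε v = -1) →
        ∃ c : A → ℤ, (∀ a ∈ J, c a = 1 ∨ c a = -1) ∧ ∀ v, dv tail head J c v = ε v := by
  classical
  induction J using Finset.induction_on with
  | empty =>
    refine ⟨id, fun v => rfl, fun v => ?_, fun ε h1 _ => ⟨fun _ => 1, by simp, fun v => ?_⟩⟩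
    · simp [dv]
    · have h2 := h1 v
      simp only [id] at h2
      simp only [dv, Finset.sum_empty]
      omega
  | insert f J hf ih =>
    obtain ⟨N, hN, hfix, hε⟩ := ih
    have hins : ∀ (c : A → ℤ) (w : V), dv tail head (insert f J) c w =
        c f * ((if tail f = w then 1 else 0) - (if head f = w then 1 else 0)) +
          dv tail head J c w := by
      intro c w
      unfold dv
      rw [Finset.sum_insert hf]
    have hupd : ∀ (c : A → ℤ) (s : ℤ) (w : V),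
        dv tail head J (Function.update c f s) w = dv tail head J c w := by
      intro c s w
      unfold dv
      refine Finset.sum_congr rfl fun a ha => ?_
      have : a ≠ f := fun h => hf (h ▸ ha)
      rw [Function.update_of_ne this]
    have hc' : ∀ (c : A → ℤ) (s : ℤ), (∀ a ∈ J, c a = 1 ∨ c a = -1) → (s = 1 ∨ s = -1) →
        ∀ a ∈ insert f J, Function.update c f s a = 1 ∨ Function.update c f s a = -1 := by
      intro c s h1 h2 a ha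
      by_cases h : a = f
      · subst h; rw [Function.update_self]; exact h2
      · rw [Function.update_of_ne h]
        exact h1 a (Finset.mem_of_mem_insert_of_ne ha h)
    obtain ⟨u, hu⟩ : ∃ u, tail f = u := ⟨_, rfl⟩
    obtain ⟨v, hv⟩ : ∃ v, head f = v := ⟨_, rfl⟩
    simp only [hu, hv] at hins
    by_cases huv : u = v
    · refine ⟨N, hN, fun w => ?_, fun ε h1 h2 => ?_⟩
      · rw [hfix, hins, huv]; simp
      · obtain ⟨c, hc1, hc2⟩ := hε ε h1 h2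
        refine ⟨Function.update c f 1, hc' c 1 hc1 (Or.inl rfl), fun w => ?_⟩
        rw [hins, hupd, hc2, huv]; simp
    · by_cases hpv : N u = v
      · have hqu : N v = u := by rw [← hpv, hN]
        refine ⟨fun x => if x = u then u else if x = v then v else N x, ?_, ?_, ?_⟩
        · intro x
          have h1 := hN x
          grind
        · intro x
          have h1 := hfix x
          have h2 := hfix u
          have h3 := hfix v
          rw [hins]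
          by_cases hxu : x = u
          · subst hxu
            have h4 : ¬ Even (dv tail head J (fun _ => 1) x) := by
              rw [← h2, hpv]; exact fun h => huv h.symm
            simp only [if_true, true_iff, if_neg (Ne.symm huv)]
            rw [Int.even_iff] at *
            omega
          · by_cases hxv : x = v
            · subst hxv
              have h4 : ¬ Even (dv tail head J (fun _ => 1) x) := by
                rw [← h3, hqu]; exact fun h => huv h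
              simp only [if_true, if_neg hxu, if_neg huv, true_iff]
              rw [Int.even_iff] at *
              omega
            · simp only [if_neg hxu, if_neg hxv, if_neg (Ne.symm hxu), if_neg (Ne.symm hxv)]
              simpa using h1
        · intro ε' h1 h2
          have hu0 : ε' u = 0 := by
            have := h1 u
            simp only [if_true] at this
            omega
          have hv0 : ε' v = 0 := by
            have := h1 v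
            simp only [if_true, if_neg (Ne.symm huv)] at this
            omega
          obtain ⟨c, hc1, hc2⟩ := hε (fun x => if x = u then -1 else if x = v then 1 else ε' x) (by
            intro x
            have h3 := h1 x
            have h4 := hN x
            grind) (by
            intro x hx
            have h3 := h2 x
            grind)
          refine ⟨Function.update c f 1, hc' c 1 hc1 (Or.inl rfl), fun w => ?_⟩
          rw [hins, hupd, hc2, Function.update_self]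
          by_cases hwu : w = u
          · subst hwu; simp [hu0, Ne.symm huv]
          · by_cases hwv : w = v
            · subst hwv; simp [hv0, hwu, huv]
            · simp [hwu, hwv, Ne.symm hwu, Ne.symm hwv]
      · -- general case
        obtain ⟨p, hp⟩ : ∃ p, N u = p := ⟨_, rfl⟩
        obtain ⟨q, hq⟩ : ∃ q, N v = q := ⟨_, rfl⟩
        have hNp : N p = u := by rw [← hp, hN]
        have hNq : N q = v := by rw [← hq, hN]
        rw [hp] at hpv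
        have hqu : q ≠ u := by
          intro h
          apply hpv
          rw [← hp, ← h, hNq]
        have hpq : p ≠ q := by
          intro h
          apply huv
          rw [← hNp, ← hNq, h]
        refine ⟨fun x => if x = p then q else if x = q then p else if x = u then u else
          if x = v then v else N x, ?_, ?_, ?_⟩
        · intro x
          have h1 := hN x
          grind
        · intro x
          have h1 := hfix x
          have hev : ∀ y : V, ¬ (N y = y) → ¬ Even (dv tail head J (fun _ => 1) y) := by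
            intro y hy h
            exact hy ((hfix y).mpr h)
          have hev2 : ∀ y : V, N y = y → Even (dv tail head J (fun _ => 1) y) :=
            fun y hy => (hfix y).mp hy
          rw [hins]
          by_cases hxu : x = u
          · subst hxu
            by_cases hxp : x = p
            · -- `u` fixed by `N`
              have h4 := hev2 x (by rw [hp, ← hxp])
              simp only [if_pos hxp, if_true, if_neg (Ne.symm huv)]
              rw [Int.even_iff] at *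
              constructor
              · intro h; exact absurd (h.trans hxp) (Ne.symm hpq)
              · intro h; omega
            · have h4 := hev x (by rw [hp]; exact fun h => hxp h.symm)
              simp only [if_neg hxp, if_neg (Ne.symm hqu), if_true, if_neg (Ne.symm huv)]
              rw [Int.even_iff] at *
              constructor
              · intro h; omega
              · intro h; trivial
          · by_cases hxv : x = v
            · subst hxv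
              by_cases hxq : x = q
              · have h4 := hev2 x (by rw [hq, ← hxq])
                have hxp : x ≠ p := fun h => hpv h.symm
                simp only [if_neg hxp, if_pos hxq, if_true, if_neg huv]
                rw [Int.even_iff] at *
                constructor
                · intro h; exact absurd h hpv
                · intro h; omega
              · have h4 := hev x (by rw [hq]; exact fun h => hxq h.symm)
                have hxp : x ≠ p := fun h => hpv h.symm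
                simp only [if_neg hxp, if_neg hxq, if_neg hxu, if_true, if_neg huv]
                rw [Int.even_iff] at *
                constructor
                · intro h; omega
                · intro h; trivial
            · simp only [if_neg hxu, if_neg hxv, if_neg (Ne.symm hxu), if_neg (Ne.symm hxv)]
              by_cases hxp : x = p
              · subst hxp
                have h4 := hev x (by rw [hNp]; exact fun h => hxu h.symm)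
                simp only [if_true]
                constructor
                · intro h; exact absurd h.symm hpq
                · intro h; exact absurd (by simpa using h) h4
              · by_cases hxq : x = q
                · subst hxq
                  have h4 := hev x (by rw [hNq]; exact fun h => hxv h.symm)
                  simp only [if_neg hxp, if_true]
                  constructor
                  · intro h; exact absurd h hpq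
                  · intro h; exact absurd (by simpa using h) h4
                · simp only [if_neg hxp, if_neg hxq]
                  simpa using h1
        · intro ε' h1 h2
          have hs : ε' p = 1 ∨ ε' p = -1 := by
            apply h2
            simp only [if_true]
            exact Ne.symm hpq
          have hsq : ε' q = - ε' p := by
            have := h1 p
            simpa using this
          obtain ⟨c, hc1, hc2⟩ := hε (fun x => if x = u then ε' u - ε' p else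
            if x = v then ε' v + ε' p else ε' x) (by
            intro x
            have h3 := h1 x
            have h5 := h1 u
            have h6 := h1 v
            have h4 := hN x
            grind) (by
            intro x hx
            have h3 := h2 x
            have h5 := h1 u
            have h6 := h1 v
            grind)
          refine ⟨Function.update c f (ε' p), hc' c _ hc1 hs, fun w => ?_⟩
          rw [hins, hupd, hc2, Function.update_self]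
          by_cases hwu : w = u
          · subst hwu; simp [Ne.symm huv]
          · by_cases hwv : w = v
            · subst hwv; simp [hwu, huv]
            · simp [hwu, hwv, Ne.symm hwu, Ne.symm hwv]



end Sec_euler

section Sec_pairs


def gg444 {V : Type*} [DecidableEq V] (p q v : V) : ℤ := (if v = p then 1 else 0) - (if v = q then 1 else 0)

theorem step444 {V : Type*} [Fintype V] [DecidableEq V] [Nonempty V] (N : V → V) (hN : ∀ v, N (N v) = v)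
    (T : Finset V) (hT : ∀ v ∈ T, N v ∈ T ∧ N v ≠ v) :
    ∃ (p q : V) (T' : Finset V), (∀ v ∈ T', N v ∈ T' ∧ N v ≠ v) ∧ (T.card = 0 → p = q) ∧
      (T'.card + 2 ≤ T.card ∨ (T.card = 0 ∧ T'.card = 0)) ∧ (∀ v, gg444 p q (N v) = - gg444 p q v) ∧
      (∀ v, (v ∈ T ∧ v ∉ T' ∧ (gg444 p q v = 1 ∨ gg444 p q v = -1)) ∨
        (gg444 p q v = 0 ∧ (v ∈ T ↔ v ∈ T'))) := by
  rcases T.eq_empty_or_nonempty with h | ⟨p, hp⟩
  · subst h
    obtain ⟨v0⟩ := ‹Nonempty V›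
    refine ⟨v0, v0, ∅, by simp, by simp, by simp, ?_, ?_⟩ <;> intro v <;> simp [gg444]
  · obtain ⟨h1, h2⟩ := hT p hp
    have hpos : 0 < T.card := card_pos.mpr ⟨p, hp⟩
    refine ⟨p, N p, (T.erase p).erase (N p), ?_, ?_, ?_, ?_, ?_⟩
    · intro v hv
      simp only [mem_erase] at hv ⊢
      obtain ⟨hv1, hv2, hv3⟩ := hv
      refine ⟨⟨?_, ?_, (hT v hv3).1⟩, (hT v hv3).2⟩
      · intro e
        apply hv2; rw [← hN v, e, hN]
      · intro e
        apply hv1; rw [← e, hN]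
    · intro h; omega
    · left
      have e1 : (T.erase p).card = T.card - 1 := card_erase_of_mem hp
      have e2 : ((T.erase p).erase (N p)).card = (T.erase p).card - 1 :=
        card_erase_of_mem (mem_erase.mpr ⟨h2, h1⟩)
      have : 0 < (T.erase p).card := card_pos.mpr ⟨N p, mem_erase.mpr ⟨h2, h1⟩⟩
      omega
    · intro v
      unfold gg444
      have a1 : N v = p ↔ v = N p := ⟨fun e => by rw [← e, hN], fun e => by rw [e, hN]⟩
      have a2 : N v = N p ↔ v = p := ⟨fun e => by rw [← hN v, e, hN], fun e => by rw [e]⟩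
      simp only [a1, a2]; ring
    · intro v
      unfold gg444
      by_cases b1 : v = p
      · left
        subst b1
        refine ⟨hp, by simp, ?_⟩
        left
        simp [Ne.symm h2]
      · by_cases b2 : v = N p
        · left
          refine ⟨b2 ▸ h1, by simp [b2], ?_⟩
          right
          rw [if_neg b1, if_pos b2]; norm_num
        · right
          rw [if_neg b1, if_neg b2]
          refine ⟨by norm_num, ?_⟩
          simp [mem_erase, b1, b2]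

theorem pairs {V : Type*} [Fintype V] [DecidableEq V] [Nonempty V] (N : V → V) (hN : ∀ v, N (N v) = v)
    (hT : (univ.filter (fun v => N v ≠ v)).card ≤ 6) :
    ∃ p1 q1 p2 q2 p3 q3 : V, ((univ.filter (fun v => N v ≠ v)).card ≤ 4 → p3 = q3) ∧
      ∀ e1 e2 e3 : ℤ, (e1 = 1 ∨ e1 = -1) → (e2 = 1 ∨ e2 = -1) → (e3 = 1 ∨ e3 = -1) →
        ∃ ε : V → ℤ, (∀ v, ε (N v) = - ε v) ∧ (∀ v, N v ≠ v → ε v = 1 ∨ ε v = -1) ∧
          ∀ X : Finset V, ∑ v ∈ X, ε v = e1 * xx p1 q1 X + e2 * xx p2 q2 X + e3 * xx p3 q3 X := by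
  obtain ⟨p1, q1, T1, a1, _, c1, d1, f1⟩ := step444 N hN (univ.filter (fun v => N v ≠ v)) (by
    intro v hv
    have hv' : N v ≠ v := (mem_filter.mp hv).2
    refine ⟨mem_filter.mpr ⟨mem_univ _, ?_⟩, hv'⟩
    rw [hN]; exact hv'.symm)
  obtain ⟨p2, q2, T2, a2, _, c2, d2, f2⟩ := step444 N hN T1 a1
  obtain ⟨p3, q3, T3, a3, b3, c3, d3, f3⟩ := step444 N hN T2 a2
  refine ⟨p1, q1, p2, q2, p3, q3, ?_, ?_⟩
  · intro h
    apply b3
    omega
  · intro e1 e2 e3 he1 he2 he3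
    refine ⟨fun v => e1 * gg444 p1 q1 v + e2 * gg444 p2 q2 v + e3 * gg444 p3 q3 v, ?_, ?_, ?_⟩
    · intro v
      simp only
      rw [d1, d2, d3]; ring
    · intro v hv
      have hT3 : T3.card = 0 := by omega
      have hT3' : T3 = ∅ := card_eq_zero.mp hT3
      have hv0 : v ∈ univ.filter (fun v => N v ≠ v) := mem_filter.mpr ⟨mem_univ _, hv⟩
      have hv3 : v ∉ T3 := by rw [hT3']; simp
      have key : ∀ e g : ℤ, (e = 1 ∨ e = -1) → (g = 1 ∨ g = -1) → (e * g = 1 ∨ e * g = -1) := by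
        intro e g h h'
        rcases h with rfl | rfl <;> rcases h' with rfl | rfl <;> simp
      simp only
      rcases f1 v with ⟨_, g1, g2⟩ | ⟨g1, g2⟩
      · rcases f2 v with ⟨g3, _, _⟩ | ⟨g3, g4⟩
        · exact absurd g3 g1
        · rcases f3 v with ⟨g5, _, _⟩ | ⟨g5, g6⟩
          · exact absurd (g4.mpr g5) g1
          · rw [g3, g5]
            simpa using key e1 _ he1 g2
      · have hv1 : v ∈ T1 := g2.mp hv0
        rcases f2 v with ⟨_, g3, g4⟩ | ⟨g3, g4⟩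
        · rcases f3 v with ⟨g5, _, _⟩ | ⟨g5, g6⟩
          · exact absurd g5 g3
          · rw [g1, g5]
            simpa using key e2 _ he2 g4
        · have hv2 : v ∈ T2 := g4.mp hv1
          rcases f3 v with ⟨_, _, g5⟩ | ⟨g5, g6⟩
          · rw [g1, g3]
            simpa using key e3 _ he3 g5
          · exact absurd (g6.mp hv2) hv3
    · intro X
      have hs : ∀ p q : V, ∑ v ∈ X, gg444 p q v = xx p q X := by
        intro p q
        unfold gg444 xx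
        rw [Finset.sum_sub_distrib, Finset.sum_ite_eq', Finset.sum_ite_eq']
      simp only [Finset.sum_add_distrib, ← Finset.mul_sum, hs]



end Sec_pairs

section Sec_L2

variable {L : Set (Finset V)} {b : V → ℤ} {k : ℤ} {p1 q1 p2 q2 p3 q3 : V}

theorem L2 (h : Good L b k p1 q1 p2 q2 p3 q3) {X Y : Finset V}
    (hX : At L b (2 * k) X) (hY : At L b (2 * k) Y)
    (a : xx p1 q1 X * xx p2 q2 X = 1) (a3 : xx p3 q3 X = 0)
    (c : xx p1 q1 Y * xx p2 q2 Y = -1) (c3 : xx p3 q3 Y = 0) : False := by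
  have key : ∀ u w : V, u ∈ X → u ∈ Y → w ∉ X → w ∉ Y →
      ∀ e : ℤ, xx p1 q1 (X ∩ Y) + xx p2 q2 (X ∩ Y) = e → (e = 1 ∨ e = -1) → False := by
    intro u w h1 h2 h3 h4 e he he'
    obtain ⟨-, -, hs, hl1, hl2, ⟨t, ht⟩, -⟩ := h.crossp hX.1 hY.1 h1 h2 h3 h4
    have hx := hX.2.2.2
    have hy := hY.2.2.2
    have h30 : xx p3 q3 (X ∩ Y) = 0 := by
      rw [xx_zero] at a3 c3 ⊢
      simp only [mem_inter]
      rw [a3, c3]
    omega
  have ha : (xx p1 q1 X = 1 ∧ xx p2 q2 X = 1) ∨ (xx p1 q1 X = -1 ∧ xx p2 q2 X = -1) := by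
    rcases xx_cases p1 q1 X with h1 | h1 | h1 <;> rcases xx_cases p2 q2 X with h2 | h2 | h2 <;>
      rw [h1, h2] at a <;> norm_num at a
    · exact Or.inl ⟨h1, h2⟩
    · exact Or.inr ⟨h1, h2⟩
  have hc : (xx p1 q1 Y = 1 ∧ xx p2 q2 Y = -1) ∨ (xx p1 q1 Y = -1 ∧ xx p2 q2 Y = 1) := by
    rcases xx_cases p1 q1 Y with h1 | h1 | h1 <;> rcases xx_cases p2 q2 Y with h2 | h2 | h2 <;>
      rw [h1, h2] at c <;> norm_num at c
    · exact Or.inl ⟨h1, h2⟩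
    · exact Or.inr ⟨h1, h2⟩
  rcases ha with ⟨a1, a2⟩ | ⟨a1, a2⟩ <;> rcases hc with ⟨c1, c2⟩ | ⟨c1, c2⟩
  · rw [xx_one] at a1 a2 c1
    rw [xx_neg] at c2
    refine key p1 q1 a1.1 c1.1 a1.2 c1.2 1 ?_ (Or.inl rfl)
    simp [xx, mem_inter, a1.1, a1.2, a2.1, a2.2, c1.1, c1.2, c2.1, c2.2]
  · rw [xx_one] at a1 a2 c2
    rw [xx_neg] at c1
    refine key p2 q2 a2.1 c2.1 a2.2 c2.2 1 ?_ (Or.inl rfl)
    simp [xx, mem_inter, a1.1, a1.2, a2.1, a2.2, c1.1, c1.2, c2.1, c2.2]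
  · rw [xx_neg] at a1 a2 c2
    rw [xx_one] at c1
    refine key q2 p2 a2.2 c2.2 a2.1 c2.1 (-1) ?_ (Or.inr rfl)
    simp [xx, mem_inter, a1.1, a1.2, a2.1, a2.2, c1.1, c1.2, c2.1, c2.2]
  · rw [xx_neg] at a1 a2 c1
    rw [xx_one] at c2
    refine key q1 p1 a1.2 c1.2 a1.1 c1.1 (-1) ?_ (Or.inr rfl)
    simp [xx, mem_inter, a1.1, a1.2, a2.1, a2.2, c1.1, c1.2, c2.1, c2.2]



end Sec_L2

section Sec_M2

variable {L : Set (Finset V)} {b : V → ℤ} {k : ℤ} {p1 q1 p2 q2 p3 q3 : V}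

theorem M2_same (p q : V) (X Y : Finset V) (h : xx p q Y = xx p q X) (hne : xx p q X ≠ 0) :
    xx p q (X ∩ Y) = xx p q X ∧ xx p q (X ∪ Y) = xx p q X := by
  unfold xx at *
  by_cases h1 : p ∈ X <;> by_cases h2 : q ∈ X <;> by_cases h3 : p ∈ Y <;> by_cases h4 : q ∈ Y <;>
    simp [h1, h2, h3, h4] at h hne ⊢

theorem M2_opp (p q : V) (X Y : Finset V) (h : xx p q Y = - xx p q X) (hne : xx p q X ≠ 0) :
    xx p q (X ∩ Y) = 0 ∧ xx p q (X ∪ Y) = 0 := by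
  unfold xx at *
  by_cases h1 : p ∈ X <;> by_cases h2 : q ∈ X <;> by_cases h3 : p ∈ Y <;> by_cases h4 : q ∈ Y <;>
    simp [h1, h2, h3, h4] at h hne ⊢

theorem M2_uw (p q : V) (X Y : Finset V) (h : xx p q Y = xx p q X) (hne : xx p q X ≠ 0) :
    ∃ u w : V, u ∈ X ∧ u ∈ Y ∧ w ∉ X ∧ w ∉ Y := by
  rcases xx_cases p q X with h1 | h1 | h1
  · have h2 := h.trans h1
    rw [xx_one] at h1 h2
    exact ⟨p, q, h1.1, h2.1, h1.2, h2.2⟩
  · have h2 := h.trans h1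
    rw [xx_neg] at h1 h2
    exact ⟨q, p, h1.2, h2.2, h1.1, h2.1⟩
  · exact absurd h1 hne

theorem M2 (h : Good L b k p1 q1 p2 q2 p3 q3) {B C : Finset V}
    (hB : At L b (2 * k + 1) B) (hC : At L b (2 * k + 1) C)
    (hb1 : xx p1 q1 B ≠ 0) (hb2 : xx p2 q2 B ≠ 0) (hb3 : xx p3 q3 B ≠ 0)
    (h12 : xx p1 q1 C * xx p2 q2 C = xx p1 q1 B * xx p2 q2 B)
    (h13 : xx p1 q1 C * xx p3 q3 C = - (xx p1 q1 B * xx p3 q3 B)) :
    (∃ Z, At L b (2 * k) Z ∧ xx p1 q1 Z * xx p2 q2 Z = xx p1 q1 B * xx p2 q2 B ∧ xx p3 q3 Z = 0) ∨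
    (xx p1 q1 C = - xx p1 q1 B ∧ xx p2 q2 C = - xx p2 q2 B ∧ xx p3 q3 C = xx p3 q3 B) := by
  have cases : (xx p1 q1 C = xx p1 q1 B ∧ xx p2 q2 C = xx p2 q2 B ∧ xx p3 q3 C = - xx p3 q3 B) ∨
      (xx p1 q1 C = - xx p1 q1 B ∧ xx p2 q2 C = - xx p2 q2 B ∧ xx p3 q3 C = xx p3 q3 B) := by
    rcases xx_cases p1 q1 B with a1 | a1 | a1 <;> rcases xx_cases p2 q2 B with a2 | a2 | a2 <;>
    rcases xx_cases p3 q3 B with a3 | a3 | a3 <;>
    first
    | exact absurd a1 hb1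
    | exact absurd a2 hb2
    | exact absurd a3 hb3
    | (rw [a1, a2] at h12
       rw [a1, a3] at h13
       rw [a1, a2, a3]
       rcases xx_cases p1 q1 C with c1 | c1 | c1 <;> rw [c1] at h12 h13 <;> rw [c1] <;>
       first
       | (exfalso; omega)
       | (left; refine ⟨?_, ?_, ?_⟩ <;> omega)
       | (right; refine ⟨?_, ?_, ?_⟩ <;> omega))
  rcases cases with ⟨e1, e2, e3⟩ | hr
  · left
    obtain ⟨u, w, hu1, hu2, hw1, hw2⟩ := M2_uw p1 q1 B C e1 hb1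
    obtain ⟨i1, i2, i3, i4, i5, ⟨t, ht⟩, ⟨t', ht'⟩⟩ := h.crossp hB.1 hC.1 hu1 hu2 hw1 hw2
    obtain ⟨x1, y1⟩ := M2_same p1 q1 B C e1 hb1
    obtain ⟨x2, y2⟩ := M2_same p2 q2 B C e2 hb2
    obtain ⟨x3, y3⟩ := M2_opp p3 q3 B C e3 hb3
    rw [x1, x2, x3] at ht
    rw [hB.2.2.2, hC.2.2.2] at i3
    have hpar : ∃ r : ℤ, xx p1 q1 B + xx p2 q2 B = 2 * r := by
      rcases xx_cases p1 q1 B with a1 | a1 | a1 <;> rcases xx_cases p2 q2 B with a2 | a2 | a2 <;>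
      first
      | exact absurd a1 hb1
      | exact absurd a2 hb2
      | (refine ⟨(xx p1 q1 B + xx p2 q2 B) / 2, ?_⟩; omega)
    obtain ⟨r, hr⟩ := hpar
    have : S b (B ∩ C) = 2 * k ∨ S b (B ∪ C) = 2 * k := by omega
    rcases this with h1 | h1
    · refine ⟨B ∩ C, ?_, by rw [x1, x2], x3⟩
      rw [h1] at i1
      exact i1
    · refine ⟨B ∪ C, ?_, by rw [y1, y2], y3⟩
      rw [h1] at i2
      exact i2
  · right
    exact hr



end Sec_M2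

section Sec_M1

variable {L : Set (Finset V)} {b : V → ℤ} {k : ℤ} {p1 q1 p2 q2 p3 q3 : V}

theorem M1_zero (p q : V) (X Y : Finset V) (h : xx p q X = 0) :
    (xx p q (X ∩ Y) = xx p q Y ∧ xx p q (X ∪ Y) = 0) ∨
    (xx p q (X ∩ Y) = 0 ∧ xx p q (X ∪ Y) = xx p q Y) := by
  unfold xx at *
  by_cases h1 : p ∈ X <;> by_cases h2 : q ∈ X <;> by_cases h3 : p ∈ Y <;> by_cases h4 : q ∈ Y <;>
    simp [h1, h2, h3, h4] at h ⊢

theorem M1_aux (h : Good L b k p1 q1 p2 q2 p3 q3) {X C : Finset V}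
    (hX : At L b (2 * k) X) (hC : At L b (2 * k + 1) C) (x3 : xx p3 q3 X = 0)
    (e1 : xx p1 q1 C = xx p1 q1 X) (hx1 : xx p1 q1 X ≠ 0)
    (e2 : xx p2 q2 C = - xx p2 q2 X) (hx2 : xx p2 q2 X ≠ 0) (hc3 : xx p3 q3 C ≠ 0) :
    ∃ Z, At L b (2 * k) Z ∧ xx p1 q1 Z * xx p3 q3 Z = xx p1 q1 C * xx p3 q3 C ∧ xx p2 q2 Z = 0 := by
  obtain ⟨u, w, hu1, hu2, hw1, hw2⟩ := M2_uw p1 q1 X C e1 hx1
  obtain ⟨i1, i2, i3, i4, i5, ⟨t, ht⟩, ⟨t', ht'⟩⟩ := h.crossp hX.1 hC.1 hu1 hu2 hw1 hw2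
  obtain ⟨x1, y1⟩ := M2_same p1 q1 X C e1 hx1
  obtain ⟨x2, y2⟩ := M2_opp p2 q2 X C e2 hx2
  rw [hX.2.2.2, hC.2.2.2] at i3
  have hpar : ∃ r : ℤ, xx p1 q1 X + xx p3 q3 C = 2 * r := by
    rcases xx_cases p1 q1 X with a1 | a1 | a1 <;> rcases xx_cases p3 q3 C with a2 | a2 | a2 <;>
    first
    | exact absurd a1 hx1
    | exact absurd a2 hc3
    | (refine ⟨(xx p1 q1 X + xx p3 q3 C) / 2, ?_⟩; omega)
  obtain ⟨r, hr⟩ := hpar
  have hodd : ∃ r : ℤ, xx p1 q1 X = 2 * r + 1 := by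
    rcases xx_cases p1 q1 X with a1 | a1 | a1
    · exact ⟨0, by omega⟩
    · exact ⟨-1, by omega⟩
    · exact absurd a1 hx1
  obtain ⟨r', hr'⟩ := hodd
  rcases M1_zero p3 q3 X C x3 with ⟨z1, z2⟩ | ⟨z1, z2⟩
  · rw [x1, x2, z1] at ht
    rw [y1, y2, z2] at ht'
    have h1 : S b (X ∩ C) = 2 * k := by omega
    refine ⟨X ∩ C, ?_, by rw [x1, z1, e1], x2⟩
    rw [h1] at i1
    exact i1
  · rw [x1, x2, z1] at ht
    rw [y1, y2, z2] at ht'
    have h1 : S b (X ∪ C) = 2 * k := by omega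
    refine ⟨X ∪ C, ?_, by rw [y1, z2, e1], y2⟩
    rw [h1] at i2
    exact i2

theorem M1 (h : Good L b k p1 q1 p2 q2 p3 q3) {X C : Finset V}
    (hX : At L b (2 * k) X) (hC : At L b (2 * k + 1) C) (x3 : xx p3 q3 X = 0)
    (hx : xx p1 q1 X * xx p2 q2 X ≠ 0) (hc3 : xx p3 q3 C ≠ 0)
    (hop : xx p1 q1 C * xx p2 q2 C = - (xx p1 q1 X * xx p2 q2 X)) :
    (∃ Z, At L b (2 * k) Z ∧ xx p1 q1 Z * xx p3 q3 Z = xx p1 q1 C * xx p3 q3 C ∧ xx p2 q2 Z = 0) ∨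
    (∃ Z, At L b (2 * k) Z ∧ xx p2 q2 Z * xx p3 q3 Z = xx p2 q2 C * xx p3 q3 C ∧ xx p1 q1 Z = 0) := by
  have hx1 : xx p1 q1 X ≠ 0 := fun hh => hx (by rw [hh, zero_mul])
  have hx2 : xx p2 q2 X ≠ 0 := fun hh => hx (by rw [hh, mul_zero])
  have cases : (xx p1 q1 C = xx p1 q1 X ∧ xx p2 q2 C = - xx p2 q2 X) ∨
      (xx p2 q2 C = xx p2 q2 X ∧ xx p1 q1 C = - xx p1 q1 X) := by
    rcases xx_cases p1 q1 X with a1 | a1 | a1 <;> rcases xx_cases p2 q2 X with a2 | a2 | a2 <;>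
    first
    | exact absurd a1 hx1
    | exact absurd a2 hx2
    | (rw [a1, a2] at hop
       rw [a1, a2]
       rcases xx_cases p1 q1 C with c1 | c1 | c1 <;> rw [c1] at hop <;> rw [c1] <;>
       first
       | (exfalso; omega)
       | (left; refine ⟨?_, ?_⟩ <;> omega)
       | (right; refine ⟨?_, ?_⟩ <;> omega))
  rcases cases with ⟨e1, e2⟩ | ⟨e1, e2⟩
  · exact Or.inl (M1_aux h hX hC x3 e1 hx1 e2 hx2 hc3)
  · exact Or.inr (M1_aux h.perm12 hX hC x3 e1 hx2 e2 hx1 hc3)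



end Sec_M1

section Sec_L3

variable {L : Set (Finset V)} {b : V → ℤ} {k : ℤ} {p1 q1 p2 q2 p3 q3 : V}

theorem AtU (h : Good L b k p1 q1 p2 q2 p3 q3) {X Y : Finset V} (hX : At L b (2 * k) X)
    (hY : At L b (2 * k) Y) (h1 : (X ∩ Y).Nonempty) (h2 : X ∪ Y ≠ univ) :
    At L b (2 * k) (X ∩ Y) ∧ At L b (2 * k) (X ∪ Y) ∧
      ∃ t : ℤ, xx p1 q1 (X ∩ Y) + xx p2 q2 (X ∩ Y) + xx p3 q3 (X ∩ Y) = 2 * t := by
  obtain ⟨a1, a2, a3, a4, a5, ⟨t, ht⟩, _⟩ := h.cross hX.1 hY.1 h1 h2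
  have e1 : S b (X ∩ Y) = 2 * k := by linarith [hX.2.2.2, hY.2.2.2]
  have e2 : S b (X ∪ Y) = 2 * k := by linarith [hX.2.2.2, hY.2.2.2]
  rw [e1] at a1
  rw [e2] at a2
  exact ⟨a1, a2, k - t, by linarith⟩

theorem ne_univ' {X Y : Finset V} {w : V} (h1 : w ∉ X) (h2 : w ∉ Y) : X ∪ Y ≠ univ := by
  intro he
  have : w ∈ X ∪ Y := by rw [he]; exact mem_univ w
  rcases mem_union.1 this with h | h
  · exact h1 h
  · exact h2 h

theorem CA (h : Good L b k p1 q1 p2 q2 p3 q3) {X Y Z : Finset V}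
    (hX : At L b (2 * k) X) (hY : At L b (2 * k) Y) (hZ : At L b (2 * k) Z)
    (x3 : xx p3 q3 X = 0) (y2 : xx p2 q2 Y = 0) (z1 : xx p1 q1 Z = 0)
    (x1 : xx p1 q1 X = 1) (x2 : xx p2 q2 X = 1) (y1 : xx p1 q1 Y = 1) (y3 : xx p3 q3 Y = 1)
    (z2 : xx p2 q2 Z = 1) (z3 : xx p3 q3 Z = 1) : False := by
  obtain ⟨x1p, x1q⟩ := (xx_one _ _ _).1 x1
  obtain ⟨x2p, x2q⟩ := (xx_one _ _ _).1 x2
  obtain ⟨y1p, y1q⟩ := (xx_one _ _ _).1 y1
  obtain ⟨y3p, y3q⟩ := (xx_one _ _ _).1 y3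
  obtain ⟨z2p, z2q⟩ := (xx_one _ _ _).1 z2
  obtain ⟨z3p, z3q⟩ := (xx_one _ _ _).1 z3
  obtain ⟨-, -, t, ht⟩ := AtU h hX hY ⟨p1, mem_inter.2 ⟨x1p, y1p⟩⟩ (ne_univ' x1q y1q)
  obtain ⟨-, -, s, hs⟩ := AtU h hX hZ ⟨p2, mem_inter.2 ⟨x2p, z2p⟩⟩ (ne_univ' x2q z2q)
  obtain ⟨-, -, r, hr⟩ := AtU h hY hZ ⟨p3, mem_inter.2 ⟨y3p, z3p⟩⟩ (ne_univ' y3q z3q)
  simp only [xx, mem_inter, x1p, x1q, x2p, x2q, y1p, y1q, y3p, y3q, z2p, z2q, z3p, z3q, true_and,
    and_true, false_and, and_false, if_true, if_false] at ht hs hr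
  split_ifs at ht hs hr <;> omega

theorem CB (hL2 : ∀ p1 q1 p2 q2 p3 q3 : V, Good L b k p1 q1 p2 q2 p3 q3 → ∀ X Y : Finset V,
      At L b (2 * k) X → At L b (2 * k) Y →
      xx p1 q1 X * xx p2 q2 X = 1 → xx p3 q3 X = 0 →
      xx p1 q1 Y * xx p2 q2 Y = -1 → xx p3 q3 Y = 0 → False)
    (h : Good L b k p1 q1 p2 q2 p3 q3) {X Y Z : Finset V}
    (hX : At L b (2 * k) X) (hY : At L b (2 * k) Y) (hZ : At L b (2 * k) Z)
    (x3 : xx p3 q3 X = 0) (y2 : xx p2 q2 Y = 0) (z1 : xx p1 q1 Z = 0)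
    (x1 : xx p1 q1 X = 1) (x2 : xx p2 q2 X = 1) (y1 : xx p1 q1 Y = 1) (y3 : xx p3 q3 Y = 1)
    (z2 : xx p2 q2 Z = -1) (z3 : xx p3 q3 Z = -1) : False := by
  obtain ⟨x1p, x1q⟩ := (xx_one _ _ _).1 x1
  obtain ⟨x2p, x2q⟩ := (xx_one _ _ _).1 x2
  obtain ⟨y1p, y1q⟩ := (xx_one _ _ _).1 y1
  obtain ⟨y3p, y3q⟩ := (xx_one _ _ _).1 y3
  obtain ⟨z2p, z2q⟩ := (xx_neg _ _ _).1 z2
  obtain ⟨z3p, z3q⟩ := (xx_neg _ _ _).1 z3
  have x3' := (xx_zero _ _ _).1 x3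
  have y2' := (xx_zero _ _ _).1 y2
  have z1' := (xx_zero _ _ _).1 z1
  obtain ⟨-, -, t, ht⟩ := AtU h hX hY ⟨p1, mem_inter.2 ⟨x1p, y1p⟩⟩ (ne_univ' x1q y1q)
  have hone : (p2 ∈ Y ∧ p3 ∉ X) ∨ (p2 ∉ Y ∧ p3 ∈ X) := by
    by_cases e1 : p2 ∈ Y <;> by_cases e2 : p3 ∈ X
    · simp only [xx, mem_inter, x1p, x1q, x2p, x2q, y1p, y1q, y3p, y3q, e1, e2, true_and,
        and_true, false_and, and_false, if_true, if_false, and_self] at ht
      omega
    · exact Or.inl ⟨e1, e2⟩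
    · exact Or.inr ⟨e1, e2⟩
    · simp only [xx, mem_inter, x1p, x1q, x2p, x2q, y1p, y1q, y3p, y3q, e1, e2, true_and,
        and_true, false_and, and_false, if_true, if_false, and_self] at ht
      omega
  have hXZ : X ∩ Z = ∅ ∨ X ∪ Z = univ := by
    by_contra hcon
    push Not at hcon
    obtain ⟨c1, c2⟩ := hcon
    obtain ⟨a1, a2, s, hs⟩ := AtU h hX hZ c1 c2
    by_cases e1 : p1 ∈ Z <;> by_cases e2 : p3 ∈ X
    · have e1' := z1'.1 e1
      have e2' := x3'.1 e2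
      apply hL2 p1 q1 p3 q3 p2 q2 h.perm23 Y (X ∩ Z) hY a1 (by rw [y1, y3]; rfl) y2
      · simp [xx, x1p, x1q, e1, e1', e2, e2', z3p, z3q]
      · simp [xx, x2p, x2q, z2p, z2q]
    · have e1' := z1'.1 e1
      have e2' : q3 ∉ X := fun hh => e2 (x3'.2 hh)
      simp [xx, x1p, x1q, x2p, x2q, z2p, z2q, z3p, z3q, e1, e2, e1', e2'] at hs
      omega
    · have e1' : q1 ∉ Z := fun hh => e1 (z1'.2 hh)
      have e2' := x3'.1 e2
      simp [xx, x1p, x1q, x2p, x2q, z2p, z2q, z3p, z3q, e1, e2, e1', e2'] at hs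
      omega
    · have e1' : q1 ∉ Z := fun hh => e1 (z1'.2 hh)
      have e2' : q3 ∉ X := fun hh => e2 (x3'.2 hh)
      apply hL2 p1 q1 p3 q3 p2 q2 h.perm23 Y (X ∪ Z) hY a2 (by rw [y1, y3]; rfl) y2
      · simp [xx, x1p, x1q, e1, e1', e2, e2', z3p, z3q]
      · simp [xx, x2p, x2q, z2p, z2q]
  have hYZ : Y ∩ Z = ∅ ∨ Y ∪ Z = univ := by
    by_contra hcon
    push Not at hcon
    obtain ⟨c1, c2⟩ := hcon
    obtain ⟨a1, a2, s, hs⟩ := AtU h hY hZ c1 c2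
    by_cases e1 : p1 ∈ Z <;> by_cases e2 : p2 ∈ Y
    · have e1' := z1'.1 e1
      have e2' := y2'.1 e2
      apply hL2 p1 q1 p2 q2 p3 q3 h X (Y ∩ Z) hX a1 (by rw [x1, x2]; rfl) x3
      · simp [xx, y1p, y1q, e1, e1', e2, e2', z2p, z2q]
      · simp [xx, y3p, y3q, z3p, z3q]
    · have e1' := z1'.1 e1
      have e2' : q2 ∉ Y := fun hh => e2 (y2'.2 hh)
      simp [xx, y1p, y1q, y3p, y3q, z2p, z2q, z3p, z3q, e1, e2, e1', e2'] at hs
      omega
    · have e1' : q1 ∉ Z := fun hh => e1 (z1'.2 hh)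
      have e2' := y2'.1 e2
      simp [xx, y1p, y1q, y3p, y3q, z2p, z2q, z3p, z3q, e1, e2, e1', e2'] at hs
      omega
    · have e1' : q1 ∉ Z := fun hh => e1 (z1'.2 hh)
      have e2' : q2 ∉ Y := fun hh => e2 (y2'.2 hh)
      apply hL2 p1 q1 p2 q2 p3 q3 h X (Y ∪ Z) hX a2 (by rw [x1, x2]; rfl) x3
      · simp [xx, y1p, y1q, e1, e1', e2, e2', z2p, z2q]
      · simp [xx, y3p, y3q, z3p, z3q]
  have ne : ∀ {A B : Finset V} {v : V}, A ∩ B = ∅ → v ∈ A → v ∈ B → False := by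
    intro A B v he h1 h2
    have : v ∈ A ∩ B := mem_inter.2 ⟨h1, h2⟩
    rw [he] at this
    exact absurd this (notMem_empty v)
  have hu : ∀ {A B : Finset V} {v : V}, A ∪ B = univ → v ∉ A → v ∈ B := by
    intro A B v he h1
    have : v ∈ A ∪ B := by rw [he]; exact mem_univ v
    exact (mem_union.1 this).resolve_left h1
  rcases hXZ with hXZ | hXZ
  · have k1 : p1 ∉ Z := fun hh => ne hXZ x1p hh
    have k2 : q1 ∉ Z := fun hh => k1 (z1'.2 hh)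
    have k3 : q3 ∉ X := fun hh => ne hXZ hh z3q
    have k4 : p3 ∉ X := fun hh => k3 (x3'.1 hh)
    have k5 : p2 ∈ Y := by tauto
    have k6 : q2 ∈ Y := y2'.1 k5
    rcases hYZ with hYZ | hYZ
    · exact ne hYZ k6 z2q
    · exact k2 (hu hYZ y1q)
  · have k1 : q1 ∈ Z := hu hXZ x1q
    have k2 : p1 ∈ Z := z1'.2 k1
    have k3 : p3 ∈ X := by
      by_contra hh
      exact z3p (hu hXZ hh)
    have k4 : p2 ∉ Y := by tauto
    rcases hYZ with hYZ | hYZ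
    · exact ne hYZ y1p k2
    · exact z2p (hu hYZ k4)

theorem L3a (hL2 : ∀ p1 q1 p2 q2 p3 q3 : V, Good L b k p1 q1 p2 q2 p3 q3 → ∀ X Y : Finset V,
      At L b (2 * k) X → At L b (2 * k) Y →
      xx p1 q1 X * xx p2 q2 X = 1 → xx p3 q3 X = 0 →
      xx p1 q1 Y * xx p2 q2 Y = -1 → xx p3 q3 Y = 0 → False)
    (h : Good L b k p1 q1 p2 q2 p3 q3) {X Y Z : Finset V}
    (hX : At L b (2 * k) X) (hY : At L b (2 * k) Y) (hZ : At L b (2 * k) Z)
    (x3 : xx p3 q3 X = 0) (y2 : xx p2 q2 Y = 0) (z1 : xx p1 q1 Z = 0)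
    (hp : (xx p1 q1 X * xx p2 q2 X) * (xx p1 q1 Y * xx p3 q3 Y) * (xx p2 q2 Z * xx p3 q3 Z) = 1)
    (x1 : xx p1 q1 X = 1) (x2 : xx p2 q2 X = 1) (y3 : xx p3 q3 Y = 1) : False := by
  rw [x1, x2, y3] at hp
  rcases xx_cases p1 q1 Y with y1 | y1 | y1 <;> rcases xx_cases p2 q2 Z with z2 | z2 | z2 <;>
    rcases xx_cases p3 q3 Z with z3 | z3 | z3 <;> rw [y1, z2, z3] at hp <;>
    first
    | (exfalso; revert hp; norm_num; done)
    | exact CA h hX hY hZ x3 y2 z1 x1 x2 y1 y3 z2 z3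
    | exact CB hL2 h hX hY hZ x3 y2 z1 x1 x2 y1 y3 z2 z3
    | exact CB hL2 h.rot.rot.swap2.swap3 hY hZ hX (by rw [xx_swap, y2]; rfl)
        (by rw [xx_swap, z1]; rfl) x3 y3 (by rw [xx_swap, y1]; rfl) z3 (by rw [xx_swap, z2]; rfl)
        (by rw [xx_swap, x1]) (by rw [xx_swap, x2])
    | exact CB hL2 h.perm12.swap3 hX hZ hY (by rw [xx_swap, x3]; rfl) z1 y2 x2 x1 z2
        (by rw [xx_swap, z3]; rfl) y1 (by rw [xx_swap, y3])

theorem L3b (hL2 : ∀ p1 q1 p2 q2 p3 q3 : V, Good L b k p1 q1 p2 q2 p3 q3 → ∀ X Y : Finset V,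
      At L b (2 * k) X → At L b (2 * k) Y →
      xx p1 q1 X * xx p2 q2 X = 1 → xx p3 q3 X = 0 →
      xx p1 q1 Y * xx p2 q2 Y = -1 → xx p3 q3 Y = 0 → False)
    (h : Good L b k p1 q1 p2 q2 p3 q3) {X Y Z : Finset V}
    (hX : At L b (2 * k) X) (hY : At L b (2 * k) Y) (hZ : At L b (2 * k) Z)
    (x3 : xx p3 q3 X = 0) (y2 : xx p2 q2 Y = 0) (z1 : xx p1 q1 Z = 0)
    (hp : (xx p1 q1 X * xx p2 q2 X) * (xx p1 q1 Y * xx p3 q3 Y) * (xx p2 q2 Z * xx p3 q3 Z) = 1)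
    (x2 : xx p2 q2 X = 1) (y3 : xx p3 q3 Y = 1) : False := by
  rcases xx_cases p1 q1 X with x1 | x1 | x1
  · exact L3a hL2 h hX hY hZ x3 y2 z1 hp x1 x2 y3
  · exact L3a hL2 h.swap1 hX hY hZ x3 y2 (by rw [xx_swap, z1]; rfl)
      (by rw [xx_swap p1 q1, xx_swap p1 q1]; rw [← hp]; ring) (by rw [xx_swap, x1]; rfl) x2 y3
  · rw [x1] at hp
    norm_num at hp

theorem L3c (hL2 : ∀ p1 q1 p2 q2 p3 q3 : V, Good L b k p1 q1 p2 q2 p3 q3 → ∀ X Y : Finset V,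
      At L b (2 * k) X → At L b (2 * k) Y →
      xx p1 q1 X * xx p2 q2 X = 1 → xx p3 q3 X = 0 →
      xx p1 q1 Y * xx p2 q2 Y = -1 → xx p3 q3 Y = 0 → False)
    (h : Good L b k p1 q1 p2 q2 p3 q3) {X Y Z : Finset V}
    (hX : At L b (2 * k) X) (hY : At L b (2 * k) Y) (hZ : At L b (2 * k) Z)
    (x3 : xx p3 q3 X = 0) (y2 : xx p2 q2 Y = 0) (z1 : xx p1 q1 Z = 0)
    (hp : (xx p1 q1 X * xx p2 q2 X) * (xx p1 q1 Y * xx p3 q3 Y) * (xx p2 q2 Z * xx p3 q3 Z) = 1)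
    (y3 : xx p3 q3 Y = 1) : False := by
  rcases xx_cases p2 q2 X with x2 | x2 | x2
  · exact L3b hL2 h hX hY hZ x3 y2 z1 hp x2 y3
  · exact L3b hL2 h.swap2 hX hY hZ x3 (by rw [xx_swap, y2]; rfl) z1
      (by rw [xx_swap p2 q2, xx_swap p2 q2]; rw [← hp]; ring) (by rw [xx_swap, x2]; rfl) y3
  · rw [x2] at hp
    norm_num at hp

theorem L3 (hL2 : ∀ p1 q1 p2 q2 p3 q3 : V, Good L b k p1 q1 p2 q2 p3 q3 → ∀ X Y : Finset V,
      At L b (2 * k) X → At L b (2 * k) Y →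
      xx p1 q1 X * xx p2 q2 X = 1 → xx p3 q3 X = 0 →
      xx p1 q1 Y * xx p2 q2 Y = -1 → xx p3 q3 Y = 0 → False)
    (h : Good L b k p1 q1 p2 q2 p3 q3) {X Y Z : Finset V}
    (hX : At L b (2 * k) X) (hY : At L b (2 * k) Y) (hZ : At L b (2 * k) Z)
    (x3 : xx p3 q3 X = 0) (y2 : xx p2 q2 Y = 0) (z1 : xx p1 q1 Z = 0)
    (hp : (xx p1 q1 X * xx p2 q2 X) * (xx p1 q1 Y * xx p3 q3 Y) * (xx p2 q2 Z * xx p3 q3 Z) = 1) :
    False := by
  rcases xx_cases p3 q3 Y with y3 | y3 | y3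
  · exact L3c hL2 h hX hY hZ x3 y2 z1 hp y3
  · exact L3c hL2 h.swap3 hX hY hZ (by rw [xx_swap, x3]; rfl) y2 z1
      (by rw [xx_swap p3 q3, xx_swap p3 q3]; rw [← hp]; ring) (by rw [xx_swap, y3]; rfl)
  · rw [y3] at hp
    norm_num at hp



end Sec_L3

section Sec_tet

variable {L : Set (Finset V)} {b : V → ℤ} {k : ℤ} {p1 q1 p2 q2 p3 q3 : V}

theorem tet (h : Good L b k p1 q1 p2 q2 p3 q3) (hk : 2 ≤ k)
    (hno : ∀ Z, At L b (2 * k) Z → xx p1 q1 Z = 0 ∧ xx p2 q2 Z = 0 ∧ xx p3 q3 Z = 0)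
    {X0 X1 X2 X3 : Finset V}
    (h0 : At L b (2 * k + 1) X0) (h1 : At L b (2 * k + 1) X1)
    (h2 : At L b (2 * k + 1) X2) (h3 : At L b (2 * k + 1) X3)
    (h01 : xx p1 q1 X0 = 1) (h02 : xx p2 q2 X0 = 1) (h03 : xx p3 q3 X0 = 1)
    (h11 : xx p1 q1 X1 = 1) (h12 : xx p2 q2 X1 = -1) (h13 : xx p3 q3 X1 = -1)
    (h21 : xx p1 q1 X2 = -1) (h22 : xx p2 q2 X2 = 1) (h23 : xx p3 q3 X2 = -1)
    (h31 : xx p1 q1 X3 = -1) (h32 : xx p2 q2 X3 = -1) (h33 : xx p3 q3 X3 = 1) : False := by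
  obtain ⟨m0, ne0, nu0, s0⟩ := h0
  obtain ⟨m1, _, _, s1⟩ := h1
  obtain ⟨m2, _, _, s2⟩ := h2
  obtain ⟨m3, _, _, s3⟩ := h3
  obtain ⟨a1, a1'⟩ := (xx_one _ _ _).1 h01
  obtain ⟨a2, a2'⟩ := (xx_one _ _ _).1 h02
  obtain ⟨a3, a3'⟩ := (xx_one _ _ _).1 h03
  obtain ⟨b1, b1'⟩ := (xx_one _ _ _).1 h11
  obtain ⟨b2, b2'⟩ := (xx_neg _ _ _).1 h12
  obtain ⟨b3, b3'⟩ := (xx_neg _ _ _).1 h13
  obtain ⟨c1, c1'⟩ := (xx_neg _ _ _).1 h21
  obtain ⟨c2, c2'⟩ := (xx_one _ _ _).1 h22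
  obtain ⟨c3, c3'⟩ := (xx_neg _ _ _).1 h23
  obtain ⟨d1, d1'⟩ := (xx_neg _ _ _).1 h31
  obtain ⟨d2, d2'⟩ := (xx_neg _ _ _).1 h32
  obtain ⟨d3, d3'⟩ := (xx_one _ _ _).1 h33
  have ind : ∀ X : Finset V, S b X = ∑ v, if v ∈ X then b v else 0 := by
    intro X
    unfold S
    rw [← Finset.sum_filter]
    congr 1
    ext v
    simp
  have ie3 : ∀ A B C D : Finset V, S b ((A ∩ B) ∪ (A ∩ C) ∪ (A ∩ D)) = S b (A ∩ B) + S b (A ∩ C) +
      S b (A ∩ D) - S b (A ∩ B ∩ C) - S b (A ∩ B ∩ D) - S b (A ∩ C ∩ D) + S b (A ∩ B ∩ C ∩ D) := by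
    intro A B C D
    simp only [ind, ← Finset.sum_add_distrib, ← Finset.sum_sub_distrib]
    refine Finset.sum_congr rfl fun v _ => ?_
    by_cases hA : v ∈ A <;> by_cases hB : v ∈ B <;> by_cases hC : v ∈ C <;> by_cases hD : v ∈ D <;>
      simp [hA, hB, hC, hD]
  have ie4 : S b (X0 ∪ X1 ∪ X2 ∪ X3) = S b X0 + S b X1 + S b X2 + S b X3 - S b (X0 ∩ X1) -
      S b (X0 ∩ X2) - S b (X0 ∩ X3) - S b (X1 ∩ X2) - S b (X1 ∩ X3) - S b (X2 ∩ X3) +
      S b (X0 ∩ X1 ∩ X2) + S b (X0 ∩ X1 ∩ X3) + S b (X0 ∩ X2 ∩ X3) + S b (X1 ∩ X2 ∩ X3) -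
      S b (X0 ∩ X1 ∩ X2 ∩ X3) := by
    simp only [ind, ← Finset.sum_add_distrib, ← Finset.sum_sub_distrib]
    refine Finset.sum_congr rfl fun v _ => ?_
    by_cases hA : v ∈ X0 <;> by_cases hB : v ∈ X1 <;> by_cases hC : v ∈ X2 <;>
      by_cases hD : v ∈ X3 <;> simp [hA, hB, hC, hD]
  have pair : ∀ {X Y : Finset V} {u w : V}, X ∈ L → Y ∈ L → S b X = 2 * k + 1 → S b Y = 2 * k + 1 →
      u ∈ X → u ∈ Y → w ∉ X → w ∉ Y →
      (xx p1 q1 (X ∩ Y) + xx p2 q2 (X ∩ Y) + xx p3 q3 (X ∩ Y)) % 2 = 1 →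
      (xx p1 q1 (X ∪ Y) + xx p2 q2 (X ∪ Y) + xx p3 q3 (X ∪ Y)) % 2 = 1 →
      S b (X ∩ Y) = 2 * k + 1 := by
    intro X Y u w hX hY sX sY h1 h2 h3 h4 e5 e6
    obtain ⟨_, _, e, l1, l2, ⟨t1, e1⟩, ⟨t2, e2⟩⟩ := h.crossp hX hY h1 h2 h3 h4
    omega
  have n01 : S b (X0 ∩ X1) = 2 * k + 1 := pair m0 m1 s0 s1 a1 b1 a1' b1'
    (by simp [xx, a1, a1', a2, a2', a3, a3', b1, b1', b2, b2', b3, b3', c1, c1', c2, c2', c3, c3', d1, d1', d2, d2', d3, d3']) (by simp [xx, a1, a1', a2, a2', a3, a3', b1, b1', b2, b2', b3, b3', c1, c1', c2, c2', c3, c3', d1, d1', d2, d2', d3, d3'])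
  have n02 : S b (X0 ∩ X2) = 2 * k + 1 := pair m0 m2 s0 s2 a2 c2 a2' c2'
    (by simp [xx, a1, a1', a2, a2', a3, a3', b1, b1', b2, b2', b3, b3', c1, c1', c2, c2', c3, c3', d1, d1', d2, d2', d3, d3']) (by simp [xx, a1, a1', a2, a2', a3, a3', b1, b1', b2, b2', b3, b3', c1, c1', c2, c2', c3, c3', d1, d1', d2, d2', d3, d3'])
  have n03 : S b (X0 ∩ X3) = 2 * k + 1 := pair m0 m3 s0 s3 a3 d3 a3' d3'
    (by simp [xx, a1, a1', a2, a2', a3, a3', b1, b1', b2, b2', b3, b3', c1, c1', c2, c2', c3, c3', d1, d1', d2, d2', d3, d3']) (by simp [xx, a1, a1', a2, a2', a3, a3', b1, b1', b2, b2', b3, b3', c1, c1', c2, c2', c3, c3', d1, d1', d2, d2', d3, d3'])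
  have n12 : S b (X1 ∩ X2) = 2 * k + 1 := pair m1 m2 s1 s2 b3' c3' b3 c3
    (by simp [xx, a1, a1', a2, a2', a3, a3', b1, b1', b2, b2', b3, b3', c1, c1', c2, c2', c3, c3', d1, d1', d2, d2', d3, d3']) (by simp [xx, a1, a1', a2, a2', a3, a3', b1, b1', b2, b2', b3, b3', c1, c1', c2, c2', c3, c3', d1, d1', d2, d2', d3, d3'])
  have n13 : S b (X1 ∩ X3) = 2 * k + 1 := pair m1 m3 s1 s3 b2' d2' b2 d2
    (by simp [xx, a1, a1', a2, a2', a3, a3', b1, b1', b2, b2', b3, b3', c1, c1', c2, c2', c3, c3', d1, d1', d2, d2', d3, d3']) (by simp [xx, a1, a1', a2, a2', a3, a3', b1, b1', b2, b2', b3, b3', c1, c1', c2, c2', c3, c3', d1, d1', d2, d2', d3, d3'])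
  have n23 : S b (X2 ∩ X3) = 2 * k + 1 := pair m2 m3 s2 s3 c1' d1' c1 d1
    (by simp [xx, a1, a1', a2, a2', a3, a3', b1, b1', b2, b2', b3, b3', c1, c1', c2, c2', c3, c3', d1, d1', d2, d2', d3, d3']) (by simp [xx, a1, a1', a2, a2', a3, a3', b1, b1', b2, b2', b3, b3', c1, c1', c2, c2', c3, c3', d1, d1', d2, d2', d3, d3'])
  have triple : ∀ {A B C : Finset V} {w : V}, A ∈ L → B ∈ L → C ∈ L → S b (A ∩ B) = 2 * k + 1 →
      S b (A ∩ C) = 2 * k + 1 → w ∉ A →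
      (xx p1 q1 ((A ∩ B) ∪ (A ∩ C)) + xx p2 q2 ((A ∩ B) ∪ (A ∩ C)) +
        xx p3 q3 ((A ∩ B) ∪ (A ∩ C))) % 2 = 0 →
      ¬ (xx p1 q1 ((A ∩ B) ∪ (A ∩ C)) = 0 ∧ xx p2 q2 ((A ∩ B) ∪ (A ∩ C)) = 0 ∧
        xx p3 q3 ((A ∩ B) ∪ (A ∩ C)) = 0) →
      (A ∩ B ∩ C).Nonempty → S b (A ∩ B ∩ C) = 2 * k := by
    intro A B C w hA hB hC sB sC hw e5 e6 hne
    have eT : (A ∩ B) ∩ (A ∩ C) = A ∩ B ∩ C := by
      ext v; simp only [mem_inter]; tauto
    have hnu : (A ∩ B) ∪ (A ∩ C) ≠ univ := by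
      intro he
      have : w ∈ (A ∩ B) ∪ (A ∩ C) := by rw [he]; exact mem_univ w
      simp only [mem_union, mem_inter] at this
      tauto
    obtain ⟨_, hU, e, l1, l2, ⟨t1, e1⟩, ⟨t2, e2⟩⟩ := h.cross (h.inter A hA B hB) (h.inter A hA C hC)
      (by rw [eT]; exact hne) hnu
    have hne2 : S b ((A ∩ B) ∪ (A ∩ C)) ≠ 2 * k := by
      intro he
      exact e6 (hno _ ⟨hU.1, hU.2.1, hU.2.2.1, he⟩)
    rw [eT] at e l1
    omega
  have r012 : (X0 ∩ X1 ∩ X2).Nonempty → S b (X0 ∩ X1 ∩ X2) = 2 * k :=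
    triple m0 m1 m2 n01 n02 a1' (by simp [xx, a1, a1', a2, a2', a3, a3', b1, b1', b2, b2', b3, b3', c1, c1', c2, c2', c3, c3', d1, d1', d2, d2', d3, d3']) (by simp [xx, a1, a1', a2, a2', a3, a3', b1, b1', b2, b2', b3, b3', c1, c1', c2, c2', c3, c3', d1, d1', d2, d2', d3, d3'])
  have r013 : (X0 ∩ X1 ∩ X3).Nonempty → S b (X0 ∩ X1 ∩ X3) = 2 * k :=
    triple m0 m1 m3 n01 n03 a1' (by simp [xx, a1, a1', a2, a2', a3, a3', b1, b1', b2, b2', b3, b3', c1, c1', c2, c2', c3, c3', d1, d1', d2, d2', d3, d3']) (by simp [xx, a1, a1', a2, a2', a3, a3', b1, b1', b2, b2', b3, b3', c1, c1', c2, c2', c3, c3', d1, d1', d2, d2', d3, d3'])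
  have r023 : (X0 ∩ X2 ∩ X3).Nonempty → S b (X0 ∩ X2 ∩ X3) = 2 * k :=
    triple m0 m2 m3 n02 n03 a1' (by simp [xx, a1, a1', a2, a2', a3, a3', b1, b1', b2, b2', b3, b3', c1, c1', c2, c2', c3, c3', d1, d1', d2, d2', d3, d3']) (by simp [xx, a1, a1', a2, a2', a3, a3', b1, b1', b2, b2', b3, b3', c1, c1', c2, c2', c3, c3', d1, d1', d2, d2', d3, d3'])
  have r123 : (X1 ∩ X2 ∩ X3).Nonempty → S b (X1 ∩ X2 ∩ X3) = 2 * k :=
    triple m1 m2 m3 n12 n13 b1' (by simp [xx, a1, a1', a2, a2', a3, a3', b1, b1', b2, b2', b3, b3', c1, c1', c2, c2', c3, c3', d1, d1', d2, d2', d3, d3']) (by simp [xx, a1, a1', a2, a2', a3, a3', b1, b1', b2, b2', b3, b3', c1, c1', c2, c2', c3, c3', d1, d1', d2, d2', d3, d3'])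
  have sE : S b ∅ = 0 := by simp [S]
  have zr : ∀ T : Finset V, (T.Nonempty → S b T = 2 * k) → S b T = 0 ∨ (T.Nonempty ∧ S b T = 2 * k) := by
    intro T hT
    rcases T.eq_empty_or_nonempty with he | he
    · left; rw [he]; exact sE
    · right; exact ⟨he, hT he⟩
  have hUL : X0 ∪ X1 ∪ X2 ∪ X3 ∈ L := h.union _ (h.union _ (h.union _ m0 _ m1) _ m2) _ m3
  have hU0 : S b (X0 ∪ X1 ∪ X2 ∪ X3) = 0 ∨ 2 * k ≤ S b (X0 ∪ X1 ∪ X2 ∪ X3) := by
    by_cases he : X0 ∪ X1 ∪ X2 ∪ X3 = univ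
    · left; rw [he]; exact h.total
    · right
      exact h.low _ hUL ⟨p1, by simp [a1]⟩ he
  -- three triples with a common index
  have three : ∀ {A B C D : Finset V} {u w : V}, A ∈ L → B ∈ L → C ∈ L → D ∈ L →
      S b (A ∩ B) = 2 * k + 1 → S b (A ∩ C) = 2 * k + 1 → S b (A ∩ D) = 2 * k + 1 →
      S b (A ∩ B ∩ C) = 2 * k → S b (A ∩ B ∩ D) = 2 * k → S b (A ∩ C ∩ D) = 2 * k →
      S b (A ∩ B ∩ C ∩ D) = 0 → u ∈ A ∩ B → w ∉ A → False := by
    intro A B C D u w hA hB hC hD e1 e2 e3 e4 e5 e6 e7 hu hw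
    have hl := h.low _ (h.union _ (h.union _ (h.inter _ hA _ hB) _ (h.inter _ hA _ hC)) _
      (h.inter _ hA _ hD)) ⟨u, mem_union_left _ (mem_union_left _ hu)⟩ (by
        intro he
        have : w ∈ (A ∩ B) ∪ (A ∩ C) ∪ (A ∩ D) := by rw [he]; exact mem_univ w
        simp only [mem_union, mem_inter] at this
        tauto)
    rw [ie3] at hl
    omega
  rcases (X0 ∩ X1 ∩ X2 ∩ X3).eq_empty_or_nonempty with hW | hW
  · have sW : S b (X0 ∩ X1 ∩ X2 ∩ X3) = 0 := by rw [hW]; exact sE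
    rcases zr _ r012 with z1 | ⟨_, z1⟩ <;> rcases zr _ r013 with z2 | ⟨_, z2⟩ <;>
      rcases zr _ r023 with z3 | ⟨_, z3⟩ <;> rcases zr _ r123 with z4 | ⟨_, z4⟩ <;>
      try omega
    exact three m0 m1 m2 m3 n01 n02 n03 z1 z2 z3 sW (mem_inter.2 ⟨a1, b1⟩) a1'
  · obtain ⟨v, hv⟩ := hW
    simp only [mem_inter] at hv
    have z1 := r012 ⟨v, by simp [hv]⟩
    have z2 := r013 ⟨v, by simp [hv]⟩
    have z3 := r023 ⟨v, by simp [hv]⟩
    have z4 := r123 ⟨v, by simp [hv]⟩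
    have eW : (X0 ∩ X1 ∩ X2) ∩ (X0 ∩ X1 ∩ X3) = X0 ∩ X1 ∩ X2 ∩ X3 := by
      ext v; simp only [mem_inter]; tauto
    obtain ⟨_, _, e, l1, l2, _, _⟩ := h.cross (h.inter _ (h.inter _ m0 _ m1) _ m2)
      (h.inter _ (h.inter _ m0 _ m1) _ m3) (by rw [eW]; exact ⟨v, by simp [hv]⟩) (by
        intro he
        have : q1 ∈ (X0 ∩ X1 ∩ X2) ∪ (X0 ∩ X1 ∩ X3) := by rw [he]; exact mem_univ q1
        simp only [mem_union, mem_inter] at this
        tauto)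
    rw [eW] at e l1
    omega



end Sec_tet

section Sec_notight

variable {L : Set (Finset V)} {b : V → ℤ} {k : ℤ} {p1 q1 p2 q2 p3 q3 : V}

theorem notight (hM2 : ∀ p1 q1 p2 q2 p3 q3 : V, Good L b k p1 q1 p2 q2 p3 q3 → ∀ B C : Finset V,
      At L b (2 * k + 1) B → At L b (2 * k + 1) C →
      xx p1 q1 B ≠ 0 → xx p2 q2 B ≠ 0 → xx p3 q3 B ≠ 0 →
      xx p1 q1 C * xx p2 q2 C = xx p1 q1 B * xx p2 q2 B →
      xx p1 q1 C * xx p3 q3 C = - (xx p1 q1 B * xx p3 q3 B) →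
      (∃ Z, At L b (2 * k) Z ∧ xx p1 q1 Z * xx p2 q2 Z = xx p1 q1 B * xx p2 q2 B ∧ xx p3 q3 Z = 0) ∨
      (xx p1 q1 C = - xx p1 q1 B ∧ xx p2 q2 C = - xx p2 q2 B ∧ xx p3 q3 C = xx p3 q3 B))
    (htet : ∀ p1 q1 p2 q2 p3 q3 : V, Good L b k p1 q1 p2 q2 p3 q3 →
      (∀ Z, At L b (2 * k) Z → xx p1 q1 Z = 0 ∧ xx p2 q2 Z = 0 ∧ xx p3 q3 Z = 0) →
      ∀ X0 X1 X2 X3 : Finset V,
      At L b (2 * k + 1) X0 → At L b (2 * k + 1) X1 → At L b (2 * k + 1) X2 → At L b (2 * k + 1) X3 →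
      xx p1 q1 X0 = 1 → xx p2 q2 X0 = 1 → xx p3 q3 X0 = 1 →
      xx p1 q1 X1 = 1 → xx p2 q2 X1 = -1 → xx p3 q3 X1 = -1 →
      xx p1 q1 X2 = -1 → xx p2 q2 X2 = 1 → xx p3 q3 X2 = -1 →
      xx p1 q1 X3 = -1 → xx p2 q2 X3 = -1 → xx p3 q3 X3 = 1 → False)
    (h : Good L b k p1 q1 p2 q2 p3 q3)
    (hno : ∀ Z, At L b (2 * k) Z → xx p1 q1 Z = 0 ∧ xx p2 q2 Z = 0 ∧ xx p3 q3 Z = 0)
    (hO : ∀ c2 c3 : ℤ, (c2 = 1 ∨ c2 = -1) → (c3 = 1 ∨ c3 = -1) →
      ∃ X, At L b (2 * k + 1) X ∧ xx p1 q1 X * xx p2 q2 X = c2 ∧ xx p1 q1 X * xx p3 q3 X = c3) :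
    False := by
  obtain ⟨A, hA, hA2, hA3⟩ := hO 1 1 (Or.inl rfl) (Or.inl rfl)
  obtain ⟨B, hB, hB2, hB3⟩ := hO 1 (-1) (Or.inl rfl) (Or.inr rfl)
  obtain ⟨C, hC, hC2, hC3⟩ := hO (-1) 1 (Or.inr rfl) (Or.inl rfl)
  obtain ⟨D, hD, hD2, hD3⟩ := hO (-1) (-1) (Or.inr rfl) (Or.inr rfl)
  have n1 : xx p1 q1 A ≠ 0 := by
    intro h0
    rw [h0, zero_mul] at hA2
    exact absurd hA2 (by norm_num)
  have n2 : xx p2 q2 A ≠ 0 := by
    intro h0
    rw [h0, mul_zero] at hA2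
    exact absurd hA2 (by norm_num)
  have n3 : xx p3 q3 A ≠ 0 := by
    intro h0
    rw [h0, mul_zero] at hA3
    exact absurd hA3 (by norm_num)
  have sq : ∀ (p q : V) (X : Finset V), xx p q X ≠ 0 → xx p q X * xx p q X = 1 := by
    intro p q X hX
    rcases xx_cases p q X with h1 | h1 | h1
    · rw [h1]; norm_num
    · rw [h1]; norm_num
    · exact absurd h1 hX
  have hne : ∀ X : Finset V, ∀ c2 : ℤ, c2 ≠ 0 → xx p1 q1 X * xx p2 q2 X = c2 → xx p1 q1 X ≠ 0 := by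
    intro X c2 hc h1 h0
    rw [h0, zero_mul] at h1
    exact hc h1.symm
  have e23 : ∀ X : Finset V, xx p1 q1 X ≠ 0 → xx p2 q2 X * xx p3 q3 X =
      (xx p1 q1 X * xx p2 q2 X) * (xx p1 q1 X * xx p3 q3 X) := by
    intro X hX
    have := sq p1 q1 X hX
    calc xx p2 q2 X * xx p3 q3 X = (xx p1 q1 X * xx p1 q1 X) * (xx p2 q2 X * xx p3 q3 X) := by
          rw [this, one_mul]
      _ = _ := by ring
  have rB : xx p1 q1 B = - xx p1 q1 A ∧ xx p2 q2 B = - xx p2 q2 A ∧ xx p3 q3 B = xx p3 q3 A := by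
    rcases hM2 p1 q1 p2 q2 p3 q3 h A B hA hB n1 n2 n3 (by rw [hB2, hA2]) (by rw [hB3, hA3]) with
      ⟨Z, hZ, hZ1, -⟩ | h1
    · rw [(hno Z hZ).1, zero_mul, hA2] at hZ1
      exact absurd hZ1 (by norm_num)
    · exact h1
  have rC : xx p1 q1 C = - xx p1 q1 A ∧ xx p3 q3 C = - xx p3 q3 A ∧ xx p2 q2 C = xx p2 q2 A := by
    rcases hM2 p1 q1 p3 q3 p2 q2 h.perm23 A C hA hC n1 n3 n2 (by rw [hC3, hA3]) (by rw [hC2, hA2]) with
      ⟨Z, hZ, hZ1, -⟩ | h1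
    · rw [(hno Z hZ).1, zero_mul, hA3] at hZ1
      exact absurd hZ1 (by norm_num)
    · exact h1
  have rD : xx p2 q2 D = - xx p2 q2 A ∧ xx p3 q3 D = - xx p3 q3 A ∧ xx p1 q1 D = xx p1 q1 A := by
    have nD := hne D _ (by norm_num) hD2
    rcases hM2 p2 q2 p3 q3 p1 q1 h.rot A D hA hD n2 n3 n1
      (by rw [e23 D nD, e23 A n1, hD2, hD3, hA2, hA3]; norm_num)
      (by rw [mul_comm, hD2, mul_comm (xx p2 q2 A), hA2]) with ⟨Z, hZ, hZ1, -⟩ | h1
    · rw [(hno Z hZ).2.1, zero_mul, e23 A n1, hA2, hA3] at hZ1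
      exact absurd hZ1 (by norm_num)
    · exact h1
  obtain ⟨b1, b2, b3⟩ := rB
  obtain ⟨c1, c3, c2⟩ := rC
  obtain ⟨d2, d3, d1⟩ := rD
  rcases xx_cases p1 q1 A with a1 | a1 | a1
  · have a2 : xx p2 q2 A = 1 := by rw [a1, one_mul] at hA2; exact hA2
    have a3 : xx p3 q3 A = 1 := by rw [a1, one_mul] at hA3; exact hA3
    exact htet p1 q1 p2 q2 p3 q3 h hno A D C B hA hD hC hB a1 a2 a3
      (by rw [d1, a1]) (by rw [d2, a2]) (by rw [d3, a3])
      (by rw [c1, a1]) (by rw [c2, a2]) (by rw [c3, a3])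
      (by rw [b1, a1]) (by rw [b2, a2]) (by rw [b3, a3])
  · have a2 : xx p2 q2 A = -1 := by rw [a1] at hA2; linarith
    have a3 : xx p3 q3 A = -1 := by rw [a1] at hA3; linarith
    refine htet q1 p1 q2 p2 q3 p3 h.swap1.swap2.swap3 (fun Z hZ => ?_) A D C B hA hD hC hB
      (by rw [xx_swap, a1]; norm_num) (by rw [xx_swap, a2]; norm_num) (by rw [xx_swap, a3]; norm_num)
      (by rw [xx_swap, d1, a1]; norm_num) (by rw [xx_swap, d2, a2]; norm_num) (by rw [xx_swap, d3, a3]; norm_num)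
      (by rw [xx_swap, c1, a1]; norm_num) (by rw [xx_swap, c2, a2]; norm_num) (by rw [xx_swap, c3, a3]; norm_num)
      (by rw [xx_swap, b1, a1]; norm_num) (by rw [xx_swap, b2, a2]; norm_num) (by rw [xx_swap, b3, a3]; norm_num)
    rw [xx_swap p1 q1, xx_swap p2 q2, xx_swap p3 q3, (hno Z hZ).1, (hno Z hZ).2.1, (hno Z hZ).2.2]
    norm_num
  · exact n1 a1



end Sec_notight

section Sec_core

variable {L : Set (Finset V)} {b : V → ℤ} {k : ℤ} {p1 q1 p2 q2 p3 q3 : V}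

theorem core_prop (Ap Am Bp Bm Cp Cm Opp Opm Omp Omm : Prop)
  (hA : ¬ (Ap ∧ Am)) (hB : ¬ (Bp ∧ Bm)) (hC : ¬ (Cp ∧ Cm))
  (h1 : ¬ (Ap ∧ Bp ∧ Cp)) (h2 : ¬ (Ap ∧ Bm ∧ Cm)) (h3 : ¬ (Am ∧ Bp ∧ Cm)) (h4 : ¬ (Am ∧ Bm ∧ Cp))
  -- M1a : A_a ∧ O(-a,c3) → B_{c3} ∨ C_{-a c3}
  (a1 : Ap → Omp → Bp ∨ Cm) (a2 : Ap → Omm → Bm ∨ Cp) (a3 : Am → Opp → Bp ∨ Cp) (a4 : Am → Opm → Bm ∨ Cm)
  -- M1b : B_a ∧ O(c2,-a) → A_{c2} ∨ C_{-a c2}
  (b1 : Bp → Opm → Ap ∨ Cm) (b2 : Bp → Omm → Am ∨ Cp) (b3 : Bm → Opp → Ap ∨ Cp) (b4 : Bm → Omp → Am ∨ Cm)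
  -- M1c : C_a ∧ O(c2,c3), c2c3=-a → A_{c2} ∨ B_{c3}
  (c1 : Cp → Opm → Ap ∨ Bm) (c2 : Cp → Omp → Am ∨ Bp) (c3 : Cm → Opp → Ap ∨ Bp) (c4 : Cm → Omm → Am ∨ Bm)
  (n : ¬ Ap → ¬ Am → ¬ Bp → ¬ Bm → ¬ Cp → ¬ Cm → Opp → Opm → Omp → Omm → False)
  (k1 : Ap ∨ Bp ∨ Cp ∨ Opp) (k2 : Ap ∨ Bm ∨ Cm ∨ Opm) (k3 : Am ∨ Bp ∨ Cm ∨ Omp) (k4 : Am ∨ Bm ∨ Cp ∨ Omm) :
  False := by
  grind (splits := 40)


/-- arithmetic behind a violated constraint -/
theorem kill_arith (x1 x2 x3 e2 e3 s k t : ℤ) (h1 : x1 = 1 ∨ x1 = -1 ∨ x1 = 0)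
    (h2 : x2 = 1 ∨ x2 = -1 ∨ x2 = 0) (h3 : x3 = 1 ∨ x3 = -1 ∨ x3 = 0)
    (he2 : e2 = 1 ∨ e2 = -1) (he3 : e3 = 1 ∨ e3 = -1) (hs : 2 * k ≤ s)
    (hp : s = x1 + x2 + x3 + 2 * t) (hv : s - 2 * k < |x1 + e2 * x2 + e3 * x3|) :
    (s = 2 * k ∧ x3 = 0 ∧ x1 * x2 = e2) ∨ (s = 2 * k ∧ x2 = 0 ∧ x1 * x3 = e3) ∨
    (s = 2 * k ∧ x1 = 0 ∧ x2 * x3 = e2 * e3) ∨ (s = 2 * k + 1 ∧ x1 * x2 = e2 ∧ x1 * x3 = e3) := by
  rw [lt_abs] at hv
  rcases h1 with rfl | rfl | rfl <;> rcases h2 with rfl | rfl | rfl <;>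
    rcases h3 with rfl | rfl | rfl <;> rcases he2 with rfl | rfl <;>
    rcases he3 with rfl | rfl <;> norm_num at hv ⊢ <;> omega

theorem kill_ex (h : Good L b k p1 q1 p2 q2 p3 q3) (e2 e3 : ℤ) (he2 : e2 = 1 ∨ e2 = -1)
    (he3 : e3 = 1 ∨ e3 = -1)
    (hcon : ¬ ∀ X ∈ L, X.Nonempty → X ≠ univ →
        |xx p1 q1 X + e2 * xx p2 q2 X + e3 * xx p3 q3 X| ≤ S b X - 2 * k) :
    (∃ X, At L b (2 * k) X ∧ xx p3 q3 X = 0 ∧ xx p1 q1 X * xx p2 q2 X = e2) ∨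
    (∃ X, At L b (2 * k) X ∧ xx p2 q2 X = 0 ∧ xx p1 q1 X * xx p3 q3 X = e3) ∨
    (∃ X, At L b (2 * k) X ∧ xx p1 q1 X = 0 ∧ xx p2 q2 X * xx p3 q3 X = e2 * e3) ∨
    (∃ X, At L b (2 * k + 1) X ∧ xx p1 q1 X * xx p2 q2 X = e2 ∧ xx p1 q1 X * xx p3 q3 X = e3) := by
  push Not at hcon
  obtain ⟨X, hX, hne, hnu, hlt⟩ := hcon
  obtain ⟨t, ht⟩ := h.par X hX
  rcases kill_arith _ _ _ e2 e3 (S b X) k t (xx_cases p1 q1 X) (xx_cases p2 q2 X)
    (xx_cases p3 q3 X) he2 he3 (h.low X hX hne hnu) ht hlt with ⟨a, b', c⟩ | ⟨a, b', c⟩ | ⟨a, b', c⟩ | ⟨a, b', c⟩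
  · exact Or.inl ⟨X, ⟨hX, hne, hnu, a⟩, b', c⟩
  · exact Or.inr (Or.inl ⟨X, ⟨hX, hne, hnu, a⟩, b', c⟩)
  · exact Or.inr (Or.inr (Or.inl ⟨X, ⟨hX, hne, hnu, a⟩, b', c⟩))
  · exact Or.inr (Or.inr (Or.inr ⟨X, ⟨hX, hne, hnu, a⟩, b', c⟩))

theorem pm_of_mul (x y c : ℤ) (hx : x = 1 ∨ x = -1 ∨ x = 0) (hy : y = 1 ∨ y = -1 ∨ y = 0)
    (hc : c = 1 ∨ c = -1) (h : x * y = c) : (x = 1 ∨ x = -1) ∧ (y = 1 ∨ y = -1) := by
  rcases hx with rfl | rfl | rfl <;> rcases hy with rfl | rfl | rfl <;>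
    rcases hc with rfl | rfl <;> simp_all

theorem mul23 (x y z c d : ℤ) (hx : x = 1 ∨ x = -1) (h1 : x * y = c) (h2 : x * z = d) :
    y * z = c * d := by
  rcases hx with rfl | rfl
  · rw [← h1, ← h2]; ring
  · rw [← h1, ← h2]; ring


theorem core (hL2 : ∀ p1 q1 p2 q2 p3 q3 : V, Good L b k p1 q1 p2 q2 p3 q3 → ∀ X Y : Finset V,
      At L b (2 * k) X → At L b (2 * k) Y →
      xx p1 q1 X * xx p2 q2 X = 1 → xx p3 q3 X = 0 →
      xx p1 q1 Y * xx p2 q2 Y = -1 → xx p3 q3 Y = 0 → False)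
    (hL3 : ∀ X Y Z : Finset V, At L b (2 * k) X → At L b (2 * k) Y → At L b (2 * k) Z →
      xx p3 q3 X = 0 → xx p2 q2 Y = 0 → xx p1 q1 Z = 0 →
      (xx p1 q1 X * xx p2 q2 X) * (xx p1 q1 Y * xx p3 q3 Y) * (xx p2 q2 Z * xx p3 q3 Z) = 1 → False)
    (hM1 : ∀ p1 q1 p2 q2 p3 q3 : V, Good L b k p1 q1 p2 q2 p3 q3 → ∀ X C : Finset V,
      At L b (2 * k) X → At L b (2 * k + 1) C → xx p3 q3 X = 0 →
      xx p1 q1 X * xx p2 q2 X ≠ 0 → xx p3 q3 C ≠ 0 →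
      xx p1 q1 C * xx p2 q2 C = - (xx p1 q1 X * xx p2 q2 X) →
      (∃ Z, At L b (2 * k) Z ∧ xx p1 q1 Z * xx p3 q3 Z = xx p1 q1 C * xx p3 q3 C ∧ xx p2 q2 Z = 0) ∨
      (∃ Z, At L b (2 * k) Z ∧ xx p2 q2 Z * xx p3 q3 Z = xx p2 q2 C * xx p3 q3 C ∧ xx p1 q1 Z = 0))
    (hnot : (∀ Z, At L b (2 * k) Z → xx p1 q1 Z = 0 ∧ xx p2 q2 Z = 0 ∧ xx p3 q3 Z = 0) →
      (∀ c2 c3 : ℤ, (c2 = 1 ∨ c2 = -1) → (c3 = 1 ∨ c3 = -1) →
        ∃ X, At L b (2 * k + 1) X ∧ xx p1 q1 X * xx p2 q2 X = c2 ∧ xx p1 q1 X * xx p3 q3 X = c3) → False)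
    (h : Good L b k p1 q1 p2 q2 p3 q3) :
    ∃ e2 e3 : ℤ, (e2 = 1 ∨ e2 = -1) ∧ (e3 = 1 ∨ e3 = -1) ∧
      ∀ X ∈ L, X.Nonempty → X ≠ univ →
        |xx p1 q1 X + e2 * xx p2 q2 X + e3 * xx p3 q3 X| ≤ S b X - 2 * k := by
  by_contra hno
  push Not at hno
  let T12 : ℤ → Prop := fun s =>
    ∃ X, At L b (2 * k) X ∧ xx p3 q3 X = 0 ∧ xx p1 q1 X * xx p2 q2 X = s
  let T13 : ℤ → Prop := fun s =>
    ∃ X, At L b (2 * k) X ∧ xx p2 q2 X = 0 ∧ xx p1 q1 X * xx p3 q3 X = s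
  let T23 : ℤ → Prop := fun s =>
    ∃ X, At L b (2 * k) X ∧ xx p1 q1 X = 0 ∧ xx p2 q2 X * xx p3 q3 X = s
  let O : ℤ → ℤ → Prop := fun c2 c3 =>
    ∃ X, At L b (2 * k + 1) X ∧ xx p1 q1 X * xx p2 q2 X = c2 ∧ xx p1 q1 X * xx p3 q3 X = c3
  have kill : ∀ e2 e3 : ℤ, (e2 = 1 ∨ e2 = -1) → (e3 = 1 ∨ e3 = -1) →
      T12 e2 ∨ T13 e3 ∨ T23 (e2 * e3) ∨ O e2 e3 := by
    intro e2 e3 he2 he3
    refine kill_ex h e2 e3 he2 he3 ?_
    intro hall
    obtain ⟨X, hX, hne, hnu, hlt⟩ := hno e2 e3 he2 he3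
    exact absurd (hall X hX hne hnu) (not_le.2 hlt)
  have cA : ¬ (T12 1 ∧ T12 (-1)) := by
    rintro ⟨⟨X, hX, hX3, hX12⟩, ⟨Y, hY, hY3, hY12⟩⟩
    exact hL2 p1 q1 p2 q2 p3 q3 h X Y hX hY hX12 hX3 hY12 hY3
  have cB : ¬ (T13 1 ∧ T13 (-1)) := by
    rintro ⟨⟨X, hX, hX3, hX12⟩, ⟨Y, hY, hY3, hY12⟩⟩
    exact hL2 p1 q1 p3 q3 p2 q2 h.perm23 X Y hX hY hX12 hX3 hY12 hY3
  have cC : ¬ (T23 1 ∧ T23 (-1)) := by
    rintro ⟨⟨X, hX, hX3, hX12⟩, ⟨Y, hY, hY3, hY12⟩⟩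
    exact hL2 p2 q2 p3 q3 p1 q1 h.rot X Y hX hY hX12 hX3 hY12 hY3
  have l3 : ∀ a b' c : ℤ, a * b' * c = 1 → ¬ (T12 a ∧ T13 b' ∧ T23 c) := by
    rintro a b' c habc ⟨⟨X, hX, hX3, hX12⟩, ⟨Y, hY, hY3, hY12⟩, ⟨Z, hZ, hZ3, hZ12⟩⟩
    exact hL3 X Y Z hX hY hZ hX3 hY3 hZ3 (by rw [hX12, hY12, hZ12]; exact habc)
  have m1a : ∀ a c3 : ℤ, (a = 1 ∨ a = -1) → (c3 = 1 ∨ c3 = -1) → T12 a → O (-a) c3 →
      T13 c3 ∨ T23 (-a * c3) := by
    rintro a c3 ha hc3 ⟨X, hX, hX3, hX12⟩ ⟨C, hC, hC12, hC13⟩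
    have hpm := pm_of_mul _ _ c3 (xx_cases p1 q1 C) (xx_cases p3 q3 C) hc3 hC13
    have hC23 := mul23 _ _ _ _ _ hpm.1 hC12 hC13
    rcases hM1 p1 q1 p2 q2 p3 q3 h X C hX hC hX3 (by rw [hX12]; omega)
      (by rcases hpm.2 with h' | h' <;> rw [h'] <;> norm_num) (by rw [hC12, hX12]) with
      ⟨Z, hZ, h13, h2⟩ | ⟨Z, hZ, h23, h1⟩
    · exact Or.inl ⟨Z, hZ, h2, by rw [h13, hC13]⟩
    · exact Or.inr ⟨Z, hZ, h1, by rw [h23, hC23]⟩
  have m1b : ∀ a c2 : ℤ, (a = 1 ∨ a = -1) → (c2 = 1 ∨ c2 = -1) → T13 a → O c2 (-a) →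
      T12 c2 ∨ T23 (-a * c2) := by
    rintro a c2 ha hc2 ⟨X, hX, hX2, hX13⟩ ⟨C, hC, hC12, hC13⟩
    have hpm := pm_of_mul _ _ c2 (xx_cases p1 q1 C) (xx_cases p2 q2 C) hc2 hC12
    have hC23 := mul23 _ _ _ _ _ hpm.1 hC13 hC12
    rcases hM1 p1 q1 p3 q3 p2 q2 h.perm23 X C hX hC hX2 (by rw [hX13]; omega)
      (by rcases hpm.2 with h' | h' <;> rw [h'] <;> norm_num) (by rw [hC13, hX13]) with
      ⟨Z, hZ, h12, h3⟩ | ⟨Z, hZ, h32, h1⟩
    · exact Or.inl ⟨Z, hZ, h3, by rw [h12, hC12]⟩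
    · exact Or.inr ⟨Z, hZ, h1, by rw [mul_comm, h32, hC23]⟩
  have m1c : ∀ a c2 c3 : ℤ, (a = 1 ∨ a = -1) → (c2 = 1 ∨ c2 = -1) → (c3 = 1 ∨ c3 = -1) →
      c2 * c3 = -a → T23 a → O c2 c3 → T12 c2 ∨ T13 c3 := by
    rintro a c2 c3 ha hc2 hc3 hcc ⟨X, hX, hX1, hX23⟩ ⟨C, hC, hC12, hC13⟩
    have hpm := pm_of_mul _ _ c2 (xx_cases p1 q1 C) (xx_cases p2 q2 C) hc2 hC12
    have hC23 := mul23 _ _ _ _ _ hpm.1 hC12 hC13
    rcases hM1 p2 q2 p3 q3 p1 q1 h.rot X C hX hC hX1 (by rw [hX23]; omega)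
      (by rcases hpm.1 with h' | h' <;> rw [h'] <;> norm_num) (by rw [hC23, hX23, hcc]) with
      ⟨Z, hZ, h21, h3⟩ | ⟨Z, hZ, h31, h2⟩
    · exact Or.inl ⟨Z, hZ, h3, by rw [mul_comm, h21, mul_comm, hC12]⟩
    · exact Or.inr ⟨Z, hZ, h2, by rw [mul_comm, h31, mul_comm, hC13]⟩
  have nn : ¬ T12 1 → ¬ T12 (-1) → ¬ T13 1 → ¬ T13 (-1) → ¬ T23 1 → ¬ T23 (-1) →
      O 1 1 → O 1 (-1) → O (-1) 1 → O (-1) (-1) → False := by
    intro n1 n2 n3 n4 n5 n6 o1 o2 o3 o4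
    refine hnot ?_ ?_
    · intro Z hZ
      obtain ⟨t, ht⟩ := h.par Z hZ.1
      have hS := hZ.2.2.2
      rw [hS] at ht
      have z1 := xx_cases p1 q1 Z
      have z2 := xx_cases p2 q2 Z
      have z3 := xx_cases p3 q3 Z
      have g12 : xx p3 q3 Z = 0 → xx p1 q1 Z * xx p2 q2 Z ≠ 1 ∧ xx p1 q1 Z * xx p2 q2 Z ≠ -1 :=
        fun h0 => ⟨fun h' => n1 ⟨Z, hZ, h0, h'⟩, fun h' => n2 ⟨Z, hZ, h0, h'⟩⟩
      have g13 : xx p2 q2 Z = 0 → xx p1 q1 Z * xx p3 q3 Z ≠ 1 ∧ xx p1 q1 Z * xx p3 q3 Z ≠ -1 :=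
        fun h0 => ⟨fun h' => n3 ⟨Z, hZ, h0, h'⟩, fun h' => n4 ⟨Z, hZ, h0, h'⟩⟩
      have g23 : xx p1 q1 Z = 0 → xx p2 q2 Z * xx p3 q3 Z ≠ 1 ∧ xx p2 q2 Z * xx p3 q3 Z ≠ -1 :=
        fun h0 => ⟨fun h' => n5 ⟨Z, hZ, h0, h'⟩, fun h' => n6 ⟨Z, hZ, h0, h'⟩⟩
      generalize xx p1 q1 Z = x1 at *
      generalize xx p2 q2 Z = x2 at *
      generalize xx p3 q3 Z = x3 at *
      rcases z1 with rfl | rfl | rfl <;> rcases z2 with rfl | rfl | rfl <;>
        rcases z3 with rfl | rfl | rfl <;> simp at g12 g13 g23 ⊢ <;> omega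
    · intro c2 c3 hc2 hc3
      rcases hc2 with rfl | rfl <;> rcases hc3 with rfl | rfl
      · exact o1
      · exact o2
      · exact o3
      · exact o4
  have p1' : (1:ℤ) = 1 ∨ (1:ℤ) = -1 := Or.inl rfl
  have pm : (-1:ℤ) = 1 ∨ (-1:ℤ) = -1 := Or.inr rfl
  have a1 := m1a 1 1 p1' p1'
  have a2 := m1a 1 (-1) p1' pm
  have a3 := m1a (-1) 1 pm p1'
  have a4 := m1a (-1) (-1) pm pm
  have b1 := m1b 1 1 p1' p1'
  have b2 := m1b 1 (-1) p1' pm
  have b3 := m1b (-1) 1 pm p1'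
  have b4 := m1b (-1) (-1) pm pm
  have c1 := m1c 1 1 (-1) p1' p1' pm (by norm_num)
  have c2 := m1c 1 (-1) 1 p1' pm p1' (by norm_num)
  have c3 := m1c (-1) 1 1 pm p1' p1' (by norm_num)
  have c4 := m1c (-1) (-1) (-1) pm pm pm (by norm_num)
  have k1 := kill 1 1 p1' p1'
  have k2 := kill 1 (-1) p1' pm
  have k3 := kill (-1) 1 pm p1'
  have k4 := kill (-1) (-1) pm pm
  have l1 := l3 1 1 1 (by norm_num)
  have l2 := l3 1 (-1) (-1) (by norm_num)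
  have l3' := l3 (-1) 1 (-1) (by norm_num)
  have l4 := l3 (-1) (-1) 1 (by norm_num)
  norm_num only [neg_neg, one_mul, mul_one, neg_mul, mul_neg] at a1 a2 a3 a4 b1 b2 b3 b4 k1 k2 k3 k4
  exact core_prop (T12 1) (T12 (-1)) (T13 1) (T13 (-1)) (T23 1) (T23 (-1))
    (O 1 1) (O 1 (-1)) (O (-1) 1) (O (-1) (-1)) cA cB cC l1 l2 l3' l4
    a1 a2 a3 a4 b1 b2 b3 b4 c1 c2 c3 c4 nn k1 k2 k3 k4



end Sec_core

variable {L : Set (Finset V)} {b : V → ℤ} {k : ℤ} {p1 q1 p2 q2 p3 q3 : V}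

theorem core_all (hk : 2 ≤ k ∨ p3 = q3) (h : Good L b k p1 q1 p2 q2 p3 q3) :
    ∃ e2 e3 : ℤ, (e2 = 1 ∨ e2 = -1) ∧ (e3 = 1 ∨ e3 = -1) ∧
      ∀ X ∈ L, X.Nonempty → X ≠ univ →
        |xx p1 q1 X + e2 * xx p2 q2 X + e3 * xx p3 q3 X| ≤ S b X - 2 * k := by
  refine core (fun p1 q1 p2 q2 p3 q3 h X Y hX hY a a3 c c3 => L2 h hX hY a a3 c c3)
    (fun X Y Z hX hY hZ x3 y2 z1 hp =>
      L3 (fun p1 q1 p2 q2 p3 q3 h X Y hX hY a a3 c c3 => L2 h hX hY a a3 c c3) h hX hY hZ x3 y2 z1 hp)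
    (fun p1 q1 p2 q2 p3 q3 h X C hX hC a1 a2 a3 a4 => M1 h hX hC a1 a2 a3 a4) ?_ h
  intro hno hO
  rcases hk with hk | hk
  · exact notight
      (fun p1 q1 p2 q2 p3 q3 h B C hB hC a1 a2 a3 a4 a5 => M2 h hB hC a1 a2 a3 a4 a5)
      (fun p1 q1 p2 q2 p3 q3 h hno X0 X1 X2 X3 h0 h1 h2 h3 a1 a2 a3 a4 a5 a6 a7 a8 a9 b1 b2 b3 =>
        tet h hk hno h0 h1 h2 h3 a1 a2 a3 a4 a5 a6 a7 a8 a9 b1 b2 b3) h hno hO
  · obtain ⟨X, -, -, h3⟩ := hO 1 1 (Or.inl rfl) (Or.inl rfl)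
    subst hk
    simp [xx] at h3

omit [Fintype V] in
theorem cutsum {A : Type*} [DecidableEq A] (tail head : A → V) (J : Finset A) (c : A → ℤ)
    (U : Finset V) (hU : ∀ e : A, head e ∈ U → tail e ∈ U) :
    ∑ v ∈ U, dv tail head J c v = ∑ a ∈ J.filter (fun e => tail e ∈ U ∧ head e ∉ U), c a := by
  unfold dv
  rw [Finset.sum_comm, Finset.sum_filter]
  refine Finset.sum_congr rfl fun a _ => ?_
  rw [← Finset.mul_sum, Finset.sum_sub_distrib, Finset.sum_ite_eq, Finset.sum_ite_eq]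
  have := hU a
  by_cases h1 : head a ∈ U
  · have h2 := this h1
    simp [h1, h2]
  · by_cases h2 : tail a ∈ U <;> simp [h1, h2]

theorem main (k : ℕ) {n m : ℕ} (tail head : Fin m → Fin n) (J : Finset (Fin m))
    (hodd : (2 ≤ k ∧ (univ.filter (fun v => Odd ((J.filter (fun e => tail e = v)).card +
        (J.filter (fun e => head e = v)).card))).card ≤ 6) ∨
      (univ.filter (fun v => Odd ((J.filter (fun e => tail e = v)).card +
        (J.filter (fun e => head e = v)).card))).card ≤ 4)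
    (hJ : ∀ U : Finset (Fin n), U.Nonempty → U ≠ Finset.univ →
          (∀ e : Fin m, head e ∈ U → tail e ∈ U) →
          2 * k ≤ (J.filter (fun e => tail e ∈ U ∧ head e ∉ U)).card) :
    ∃ J₁ : Finset (Fin m), J₁ ⊆ J ∧
        (∀ U : Finset (Fin n), U.Nonempty → U ≠ Finset.univ →
            (∀ e : Fin m, head e ∈ U → tail e ∈ U) →
            k ≤ (J₁.filter (fun e => tail e ∈ U ∧ head e ∉ U)).card) ∧
        (∀ U : Finset (Fin n), U.Nonempty → U ≠ Finset.univ →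
            (∀ e : Fin m, head e ∈ U → tail e ∈ U) →
            k ≤ ((J \ J₁).filter (fun e => tail e ∈ U ∧ head e ∉ U)).card) := by
  classical
  rcases Nat.eq_zero_or_pos n with hn | hn
  · subst hn
    refine ⟨∅, by simp, ?_, ?_⟩ <;>
    · rintro U ⟨v, _⟩
      exact v.elim0
  haveI : Nonempty (Fin n) := ⟨⟨0, hn⟩⟩
  obtain ⟨N, hN, hfix, hE⟩ := euler tail head J
  set b : Fin n → ℤ := dv tail head J (fun _ => 1) with hb
  have hbv : ∀ v, b v = ((J.filter (fun e => tail e = v)).card : ℤ) -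
      ((J.filter (fun e => head e = v)).card : ℤ) := by
    intro v
    simp only [hb, dv, one_mul, Finset.sum_sub_distrib]
    rw [Finset.card_filter, Finset.card_filter]
    push_cast
    rfl
  have hTeq : univ.filter (fun v => N v ≠ v) = univ.filter (fun v => Odd ((J.filter (fun e => tail e = v)).card +
        (J.filter (fun e => head e = v)).card)) := by
    ext v
    simp only [mem_filter, mem_univ, true_and, ne_eq, hfix, hbv, ← Nat.not_even_iff_odd]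
    rw [Int.even_sub, Nat.even_add, Int.even_coe_nat, Int.even_coe_nat]
  rw [← hTeq] at hodd
  have h6 : (univ.filter (fun v => N v ≠ v)).card ≤ 6 := by
    rcases hodd with h | h
    · exact h.2
    · omega
  obtain ⟨p1, q1, p2, q2, p3, q3, hpq, hε⟩ := pairs N hN h6
  set L : Set (Finset (Fin n)) := {U | ∀ e : Fin m, head e ∈ U → tail e ∈ U} with hL
  have hcut : ∀ U ∈ L, S b U = ((J.filter (fun e => tail e ∈ U ∧ head e ∉ U)).card : ℤ) := by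
    intro U hU
    have := cutsum tail head J (fun _ => 1) U hU
    simp only [Finset.sum_const, nsmul_eq_mul, mul_one] at this
    exact this
  have hG : Good L b (k : ℤ) p1 q1 p2 q2 p3 q3 := by
    refine ⟨?_, ?_, ?_, ?_, ?_⟩
    · intro X hX Y hY e he
      exact mem_inter.2 ⟨hX e (mem_inter.1 he).1, hY e (mem_inter.1 he).2⟩
    · intro X hX Y hY e he
      rcases mem_union.1 he with h | h
      · exact mem_union_left _ (hX e h)
      · exact mem_union_right _ (hY e h)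
    · rw [hcut univ (fun e _ => mem_univ _)]
      simp
    · intro X hX h1 h2
      rw [hcut X hX]
      exact_mod_cast hJ X h1 h2 hX
    · intro X hX
      obtain ⟨ε, h1, h2, h3⟩ := hε 1 1 1 (Or.inl rfl) (Or.inl rfl) (Or.inl rfl)
      have hev : ∀ v, (2 : ℤ) ∣ b v - ε v := by
        intro v
        by_cases hv : N v = v
        · have h4 : ε v = 0 := by
            have := h1 v
            rw [hv] at this
            linarith
          have h5 : Even (b v) := (hfix v).1 hv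
          rw [h4, sub_zero]
          exact h5.two_dvd
        · have h5 : Odd (b v) := by
            rw [← Int.not_even_iff_odd]
            exact fun h => hv ((hfix v).2 h)
          obtain ⟨r, hr⟩ := h5
          rcases h2 v hv with h4 | h4 <;> rw [h4, hr]
          · exact ⟨r, by ring⟩
          · exact ⟨r + 1, by ring⟩
      have h6 : (2 : ℤ) ∣ ∑ v ∈ X, (b v - ε v) := Finset.dvd_sum fun v _ => hev v
      obtain ⟨t, ht⟩ := h6
      refine ⟨t, ?_⟩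
      rw [Finset.sum_sub_distrib, h3 X] at ht
      unfold S
      linarith
  have hk' : (2 : ℤ) ≤ (k : ℤ) ∨ p3 = q3 := by
    rcases hodd with h | h
    · left
      exact_mod_cast h.1
    · right
      exact hpq h
  obtain ⟨e2, e3, he2, he3, hmain⟩ := core_all hk' hG
  obtain ⟨ε, h1, h2, h3⟩ := hε 1 e2 e3 (Or.inl rfl) he2 he3
  obtain ⟨c, hc, hcε⟩ := hE ε h1 h2
  have hkey : ∀ U : Finset (Fin n), U.Nonempty → U ≠ Finset.univ →
      (∀ e : Fin m, head e ∈ U → tail e ∈ U) →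
      k ≤ ((J.filter (fun e => c e = 1)).filter (fun e => tail e ∈ U ∧ head e ∉ U)).card ∧
      k ≤ ((J \ J.filter (fun e => c e = 1)).filter (fun e => tail e ∈ U ∧ head e ∉ U)).card := by
    intro U hne hun hU
    have a1 := hmain U hU hne hun
    rw [hcut U hU] at a1
    have a2 := cutsum tail head J c U hU
    simp only [hcε] at a2
    rw [h3 U, one_mul] at a2
    rw [a2] at a1
    have a3 : (J.filter (fun e => tail e ∈ U ∧ head e ∉ U)).card =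
        ((J.filter (fun e => c e = 1)).filter (fun e => tail e ∈ U ∧ head e ∉ U)).card +
        ((J \ J.filter (fun e => c e = 1)).filter (fun e => tail e ∈ U ∧ head e ∉ U)).card := by
      rw [← Finset.card_union_of_disjoint]
      · congr 1
        ext e
        simp only [mem_filter, mem_union, mem_sdiff]
        tauto
      · rw [Finset.disjoint_left]
        intro e he he'
        simp only [mem_filter, mem_sdiff] at he he'
        tauto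
    have a4 : ∑ a ∈ J.filter (fun e => tail e ∈ U ∧ head e ∉ U), c a =
        (((J.filter (fun e => c e = 1)).filter (fun e => tail e ∈ U ∧ head e ∉ U)).card : ℤ) -
        (((J \ J.filter (fun e => c e = 1)).filter (fun e => tail e ∈ U ∧ head e ∉ U)).card : ℤ) := by
      have e1 : J.filter (fun e => tail e ∈ U ∧ head e ∉ U) =
          ((J.filter (fun e => c e = 1)).filter (fun e => tail e ∈ U ∧ head e ∉ U)) ∪
          ((J \ J.filter (fun e => c e = 1)).filter (fun e => tail e ∈ U ∧ head e ∉ U)) := by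
        ext e
        simp only [mem_filter, mem_union, mem_sdiff]
        tauto
      rw [e1, Finset.sum_union]
      · have s1 : ∑ a ∈ (J.filter (fun e => c e = 1)).filter (fun e => tail e ∈ U ∧ head e ∉ U), c a
            = (((J.filter (fun e => c e = 1)).filter (fun e => tail e ∈ U ∧ head e ∉ U)).card : ℤ) := by
          rw [Finset.sum_congr rfl (g := fun _ => (1 : ℤ))]
          · simp
          · intro a ha
            simp only [mem_filter] at ha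
            exact ha.1.2
        have s2 : ∑ a ∈ (J \ J.filter (fun e => c e = 1)).filter (fun e => tail e ∈ U ∧ head e ∉ U), c a
            = - (((J \ J.filter (fun e => c e = 1)).filter (fun e => tail e ∈ U ∧ head e ∉ U)).card : ℤ) := by
          rw [Finset.sum_congr rfl (g := fun _ => (-1 : ℤ))]
          · simp
          · intro a ha
            simp only [mem_filter, mem_sdiff, not_and] at ha
            rcases hc a ha.1.1 with h | h
            · exact absurd h (ha.1.2 ha.1.1)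
            · exact h
        rw [s1, s2]
        ring
      · rw [Finset.disjoint_left]
        intro e he he'
        simp only [mem_filter, mem_sdiff] at he he'
        tauto
    rw [a4] at a1
    rw [abs_le] at a1
    rw [a3] at a1
    push_cast at a1
    omega
  exact ⟨J.filter (fun e => c e = 1), Finset.filter_subset _ _,
    fun U h1 h2 h3 => (hkey U h1 h2 h3).1, fun U h1 h2 h3 => (hkey U h1 h2 h3).2⟩

end Pool.Agent.Helper830.DJ
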